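import Pool.Agent.Y522.Stm

/-!
# More tools: local inverses, differentials, collars in manifolds
-/

set_option autoImplicit false

open Set Filter Topology Metric Function MeasureTheory
open scoped Manifold ContDiff

noncomputable section

namespace Pool.Agent.Y522

section general

variable {n : ℕ} {M N P : Type*} [TopologicalSpace M] [ChartedSpace (E n) M]
    [TopologicalSpace N] [ChartedSpace (E n) N] [TopologicalSpace P] [ChartedSpace (E n) P]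

theorem LD.exists_inverse {f : M → N} {x : M} (hf : LD n f x) :
    ∃ p : N → M, LD n p (f x) ∧ p (f x) = x ∧ (∀ᶠ y in 𝓝 x, p (f y) = y) ∧
      ∀ᶠ z in 𝓝 (f x), f (p z) = z := by
  obtain ⟨Φ, hx, heq⟩ := hf
  have h0 : f x = Φ.toPartialEquiv x := heq hx
  refine ⟨Φ.symm, ?_, ?_, ?_, ?_⟩
  · refine ⟨Φ.symm, ?_, fun _ _ => rfl⟩
    change f x ∈ Φ.target
    rw [h0]
    exact Φ.map_source hx
  · rw [h0]
    exact Φ.left_inv hx
  · filter_upwards [Φ.open_source.mem_nhds hx] with y hy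
    rw [heq hy]
    exact Φ.left_inv hy
  · have h1 : f x ∈ Φ.target := by
      rw [h0]
      exact Φ.map_source hx
    filter_upwards [Φ.open_target.mem_nhds h1] with z hz
    have h2 : Φ.symm z ∈ Φ.source := Φ.map_target hz
    rw [heq h2]
    exact Φ.right_inv hz

theorem LD.mfderiv_injective [IsManifold (𝓡 n) ∞ M] [IsManifold (𝓡 n) ∞ N]
    {f : M → N} {x : M} (hf : LD n f x) :
    Injective (mfderiv (𝓡 n) (𝓡 n) f x) := by
  have h := hf.mfderivToContinuousLinearEquiv_coe (by simp)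
  rw [← h]
  exact (hf.mfderivToContinuousLinearEquiv (by simp)).injective

theorem LD.mdifferentiableAt {f : M → N} {x : M} (hf : LD n f x) :
    MDifferentiableAt (𝓡 n) (𝓡 n) f x :=
  IsLocalDiffeomorphAt.mdifferentiableAt hf (by simp)

end general

/-- collars of compact pieces of hypersurfaces in manifolds -/
theorem collarX (hC : StCollar) {m : ℕ} {X : Type} [TopologicalSpace X]
    [ChartedSpace (E (m + 1)) X] [IsManifold (𝓡 (m + 1)) ∞ X] (φ : X → ℝ) (f : E m → X)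
    (hφ : ContMDiff (𝓡 (m + 1)) 𝓘(ℝ, ℝ) ∞ φ) (hfi : Injective f)
    (hf : ContMDiff (𝓡 m) (𝓡 (m + 1)) ∞ f)
    (hfd : ∀ x, Injective (mfderiv (𝓡 m) (𝓡 (m + 1)) f x)) (h0 : ∀ x, φ (f x) = 0)
    (hd : ∀ x, mfderiv (𝓡 (m + 1)) 𝓘(ℝ, ℝ) φ (f x) ≠ 0) (R : ℝ) (hR : 0 < R)
    (hE : Emb (m + 1) (f '' closedBall 0 R)) (N : Set X) (hN : IsOpen N)
    (hfN : ∀ x, ‖x‖ ≤ R → f x ∈ N) :
    ∃ η : ℝ, 0 < η ∧ ∃ F : E (m + 1) → X, (∀ x, ‖x‖ ≤ R → F (cn 0 x) = f x) ∧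
      InjOn F (box m R η) ∧ (∀ z ∈ box m R η, LD (m + 1) F z ∧ F z ∈ N) ∧
      ∀ z ∈ box m R η, (0 < z 0 → 0 < φ (F z)) ∧ (z 0 < 0 → φ (F z) < 0) := by
  obtain ⟨U, k, hU, hKU, hk, hkd⟩ := hE
  have hV : IsOpen (U ∩ N) := hU.inter hN
  have hfV : ∀ x, ‖x‖ ≤ R → f x ∈ U ∩ N := fun x hx =>
    ⟨hKU ⟨x, by simpa using hx, rfl⟩, hfN x hx⟩
  haveI : Nonempty X := ⟨f 0⟩
  have hkV : InjOn k (U ∩ N) := hk.mono inter_subset_left
  have hkdV : ∀ x ∈ U ∩ N, LD (m + 1) k x := fun x hx => hkd x hx.1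
  obtain ⟨κ, hκ⟩ : ∃ κ : E (m + 1) → X, ∀ x ∈ U ∩ N, κ (k x) = x :=
    ⟨invFunOn k (U ∩ N), fun x hx => hkV.leftInvOn_invFunOn hx⟩
  have hκd : ∀ x ∈ U ∩ N, LD (m + 1) κ (k x) := fun x hx => LD.inverse hV hkdV hκ hx
  have hN' : IsOpen (k '' (U ∩ N)) := isOpen_image_of_LD hV hkdV
  have hgd : ∀ x, ‖x‖ ≤ R → ContMDiffAt (𝓡 m) (𝓡 (m + 1)) ∞ (k ∘ f) x := fun x hx =>
    (hkd _ (hfV x hx).1).contMDiffAt.comp x hf.contMDiffAt
  have hgd' : ∀ x, ‖x‖ ≤ R → ∀ᶠ y in 𝓝 x, ContDiffAt ℝ ∞ (k ∘ f) y := by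
    intro x hx
    have h1 : ∀ᶠ y in 𝓝 x, f y ∈ U := hf.continuous.continuousAt (hU.mem_nhds (hfV x hx).1)
    filter_upwards [h1] with y hy
    exact contMDiffAt_iff_contDiffAt.1 ((hkd _ hy).contMDiffAt.comp y hf.contMDiffAt)
  have hψd : ∀ z ∈ k '' (U ∩ N), ContDiffAt ℝ ∞ (φ ∘ κ) z := by
    rintro _ ⟨x, hx, rfl⟩
    refine contMDiffAt_iff_contDiffAt.1 ?_
    exact hφ.contMDiffAt.comp _ (hκd x hx).contMDiffAt
  have hφd : ∀ x ∈ U ∩ N, φ =ᶠ[𝓝 x] (φ ∘ κ) ∘ k := by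
    intro x hx
    filter_upwards [hV.mem_nhds hx] with y hy
    simp [hκ y hy]
  obtain ⟨η, hη, F₀, hF1, hF2, hF3, hF4⟩ := hC m (k ∘ f) (φ ∘ κ) (k '' (U ∩ N)) R hR hN' hψd hgd'
    (by
      intro x hx y hy hxy
      exact hfi (hk (hfV x (by simpa using hx)).1 (hfV y (by simpa using hy)).1 hxy))
    (by
      intro x hx
      have h1 : fderiv ℝ (k ∘ f) x = mfderiv (𝓡 m) (𝓡 (m + 1)) (k ∘ f) x :=
        mfderiv_eq_fderiv.symm
      have h2 : mfderiv (𝓡 m) (𝓡 (m + 1)) (k ∘ f) x =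
          (mfderiv (𝓡 (m + 1)) (𝓡 (m + 1)) k (f x)).comp (mfderiv (𝓡 m) (𝓡 (m + 1)) f x) :=
        mfderiv_comp x (hkd _ (hfV x hx).1).mdifferentiableAt
          (hf.mdifferentiableAt (by simp))
      intro a b hab
      rw [h1, h2] at hab
      exact hfd x ((hkd _ (hfV x hx).1).mfderiv_injective hab))
    (by
      intro x hx
      exact ⟨f x, hfV x hx, rfl⟩)
    (by
      intro x hx
      have h1 : ∀ᶠ y in 𝓝 x, f y ∈ U ∩ N := hf.continuous.continuousAt (hV.mem_nhds (hfV x hx))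
      filter_upwards [h1] with y hy
      simp [hκ _ hy, h0])
    (by
      intro x hx hcon
      apply hd x
      have h1 : mfderiv (𝓡 (m + 1)) 𝓘(ℝ, ℝ) φ (f x) =
          mfderiv (𝓡 (m + 1)) 𝓘(ℝ, ℝ) ((φ ∘ κ) ∘ k) (f x) :=
        (hφd _ (hfV x hx)).mfderiv_eq
      have h3 : MDifferentiableAt (𝓡 (m + 1)) 𝓘(ℝ, ℝ) (φ ∘ κ) (k (f x)) :=
        mdifferentiableAt_iff_differentiableAt.2
          ((hψd _ ⟨_, hfV x hx, rfl⟩).differentiableAt (by simp))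
      have h2 : mfderiv (𝓡 (m + 1)) 𝓘(ℝ, ℝ) ((φ ∘ κ) ∘ k) (f x) =
          (mfderiv (𝓡 (m + 1)) 𝓘(ℝ, ℝ) (φ ∘ κ) (k (f x))).comp
            (mfderiv (𝓡 (m + 1)) (𝓡 (m + 1)) k (f x)) :=
        mfderiv_comp _ h3 (hkd _ (hfV x hx).1).mdifferentiableAt
      have h4 : mfderiv (𝓡 (m + 1)) 𝓘(ℝ, ℝ) (φ ∘ κ) (k (f x)) = 0 := by
        rw [mfderiv_eq_fderiv]
        exact hcon
      rw [h1, h2, h4]
      rfl)
  have hF5 : ∀ z ∈ box m R η, ∃ y ∈ U ∩ N, F₀ z = k y := by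
    intro z hz
    obtain ⟨y, hy, hyz⟩ := (hF3 z hz).2
    exact ⟨y, hy, hyz.symm⟩
  refine ⟨η, hη, fun z => κ (F₀ z), ?_, ?_, ?_, ?_⟩
  · intro x hx
    simp only [hF1 x hx, Function.comp]
    exact hκ _ (hfV x hx)
  · intro a ha b hb hab
    apply hF2 ha hb
    obtain ⟨y, hy, hyz⟩ := hF5 a ha
    obtain ⟨y', hy', hyz'⟩ := hF5 b hb
    simp only [hyz, hyz', hκ y hy, hκ y' hy'] at hab
    rw [hyz, hyz', hab]
  · intro z hz
    obtain ⟨y, hy, hyz⟩ := hF5 z hz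
    refine ⟨?_, ?_⟩
    · refine LD.comp_fun ?_ (hF3 z hz).1
      rw [hyz]
      exact hκd y hy
    · simp only [hyz, hκ y hy]
      exact hy.2
  · intro z hz
    exact hF4 z hz

end Pool.Agent.Y522
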