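import Pool.Agent.Y664.SH.B4
import Pool.Agent.Y337.SH.Straight
import Pool.Agent.Y47.SH.NBox
import Pool.Agent.Y207.SH.Step
import Pool.Agent.Y870.SH.Glob
import Pool.Agent.Y674.SH.Final2

/-!
# Homeomorphisms with `n - 1` smooth linear coordinates: assembly
-/

set_option autoImplicit false

open Set Filter Topology Metric Function MeasureTheory
open scoped Manifold ContDiff

noncomputable section

namespace Pool.Agent.Y522

theorem hStep : StStep := Pool.Agent.Y207.SH.step Pool.Agent.Y664.SH.blend Pool.Agent.Y337.SH.straight

theorem hGlob : StGlob := Pool.Agent.Y870.SH.glob Pool.Agent.Y47.SH.nbox hStep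

theorem stCompactCase : StCompactCase := Pool.Agent.Y674.SH.compactCase hGlob

end Pool.Agent.Y522
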