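import Pool.Agent.Y522.Stm6

/-!
# Project SH4: the Schoenflies problem, statements
-/

set_option autoImplicit false

open Set Filter Topology Metric Function MeasureTheory
open scoped Manifold ContDiff

noncomputable section

namespace Pool.Agent.Y522

/-- Palais' extension theorem with control at infinity: an open embedding of `ℝ^n` into itself
agrees on every ball with a diffeomorphism of `ℝ^n` which is a linear isometry outside a ball. -/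
def StExtO : Prop :=
  ∀ (n : ℕ) (g : E n → E n), Injective g → (∀ x, LD n g x) → ∀ R : ℝ,
    ∃ (G : E n → E n) (O : E n ≃ₗᵢ[ℝ] E n) (R' : ℝ), Bijective G ∧ (∀ x, LD n G x) ∧
      (∀ x, ‖x‖ ≤ R → G x = g x) ∧ ∀ x, R' ≤ ‖x‖ → G x = O x

/-- Schoenflies theorem for balls with `m` smooth linear coordinates. -/
def StSch1 : Prop :=
  ∀ (m : ℕ) (H : E (m + 1) → E (m + 1)) (δ : ℝ), 0 < δ → ContinuousOn H (ball 0 (1 + δ)) →
    InjOn H (ball 0 (1 + δ)) → (∀ x, 1 ≤ ‖x‖ → ‖x‖ < 1 + δ → LD (m + 1) H x) →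
    (∀ x, ‖x‖ < 1 → ¬ LD (m + 1) H x → ∃ P : E (m + 1) →L[ℝ] E m,
      (∀ᶠ y in 𝓝 x, ContDiffAt ℝ ∞ (fun y => P (H y)) y) ∧
      Surjective (fderiv ℝ (fun y => P (H y)) x)) →
    ∃ (G : E (m + 1) → E (m + 1)) (O : E (m + 1) ≃ₗᵢ[ℝ] E (m + 1)) (R' : ℝ), Bijective G ∧
      (∀ x, LD (m + 1) G x) ∧ (∀ x, ‖x‖ = 1 → G x = H x) ∧
      G '' closedBall 0 1 = H '' closedBall 0 1 ∧ ∀ x, R' ≤ ‖x‖ → G x = O x

/-- one step of the smoothing, with values in an open set -/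
def StMStepV : Prop :=
  ∀ (n : ℕ) (X : Type) [TopologicalSpace X] [T2Space X] [ChartedSpace (E n) X]
    [IsManifold (𝓡 n) ∞ X] (F : X → E n) (V : Set (E n)) (N : ℕ) (B : Fin N → E n → X)
    (k : Fin N) (ρ ρ' κ κ' : ℝ), Continuous F → IsOpen V → (∀ p, F p ∈ V) →
    (∀ j, InjOn (B j) (closedBall 0 2)) →
    (∀ j, ∀ z ∈ closedBall 0 2, LD n (B j) z) → 3 / 2 ≤ ρ' → ρ' < ρ → ρ ≤ 2 → 0 < κ' → κ' < κ →
    (∀ j, MBox n F (B j) ρ κ) →
    ∃ F' : X → E n, Continuous F' ∧ (∀ p, p ∉ B k '' closedBall 0 1 → F' p = F p) ∧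
      (∀ p, F' p ∈ V) ∧ (∀ p, LD n F p → LD n F' p) ∧
      (∀ z, ‖z‖ ≤ 1 / 2 → LD n F' (B k z)) ∧ ∀ j, MBox n F' (B j) ρ' κ'

/-- local homeomorphisms which agree with an open embedding off a compact set -/
def StCoverV : Prop :=
  ∀ (n : ℕ) (X : Type) [TopologicalSpace X] [T2Space X] [ChartedSpace (E n) X]
    (F F' : X → E n) (C : Set X), IsOpenEmbedding F → IsPreconnected (range F) → IsCompact C →
    (∀ p, p ∉ C → F' p = F p) → (∀ p, F' p ∈ range F) → (∀ x, LD n F' x) →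
    Injective F' ∧ range F' = range F

/-- smoothing of directionally monotone open embeddings -/
def StMGlobV : Prop :=
  ∀ (n : ℕ) (X : Type) [TopologicalSpace X] [T2Space X] [ChartedSpace (E n) X]
    [IsManifold (𝓡 n) ∞ X] (F : X → E n), IsOpenEmbedding F → IsPreconnected (range F) →
    (∀ x, ¬ LD n F x → DMon n F x) → IsCompact {x | ¬ LD n F x} →
    ∃ (F' : X → E n) (C : Set X), IsCompact C ∧ Continuous F' ∧ Injective F' ∧
      range F' = range F ∧ (∀ p, p ∉ C → F' p = F p) ∧ ∀ x, LD n F' x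

/-- Schoenflies theorem for directionally monotone balls. -/
def StSch2 : Prop :=
  ∀ (n : ℕ) (H : E n → E n) (δ : ℝ), 0 < δ → ContinuousOn H (ball 0 (1 + δ)) →
    InjOn H (ball 0 (1 + δ)) →
    (∀ x, 1 ≤ ‖x‖ → ‖x‖ < 1 + δ → LD n H x) →
    (∀ x, ‖x‖ < 1 → ¬ LD n H x → ∀ v : E n, v ≠ 0 → ∃ (r : ℝ) (ℓ : E n →L[ℝ] ℝ), 0 < r ∧
      ∀ p q : E n, ‖p - x‖ ≤ r → ‖q - x‖ ≤ r → ∀ t : ℝ, 0 < t → ‖q - p - t • v‖ ≤ r * t →
        ℓ (H p) < ℓ (H q)) →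
    ∃ (G : E n → E n) (O : E n ≃ₗᵢ[ℝ] E n) (R' : ℝ), Bijective G ∧
      (∀ x, LD n G x) ∧ (∀ x, ‖x‖ = 1 → G x = H x) ∧
      G '' closedBall 0 1 = H '' closedBall 0 1 ∧ ∀ x, R' ≤ ‖x‖ → G x = O x

end Pool.Agent.Y522
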