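import Pool.Agent.Y207.SH.MStep
import Pool.Agent.Y954.SH.MollS
import Pool.Agent.Y270.SH.MollP
import Pool.Agent.Y977.SH.Disp
import Pool.Agent.Y899.SH.Cover
import Pool.Agent.Y899.SH.Chart
import Pool.Agent.Y73.SH.Glob
import Pool.Agent.Y852.SH.Final

/-!
# Project SH3: directionally monotone homeomorphisms (assembly)
-/

set_option autoImplicit false

namespace Pool.Agent.Y522

theorem stMStep : StMStep :=
  Pool.Agent.Y207.SH3.mstep Pool.Agent.Y954.SH.mollS
    (Pool.Agent.Y270.SH.mollP Pool.Agent.Y954.SH.mollS) Pool.Agent.Y977.SH.disp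

theorem stMGlob : StMGlob :=
  Pool.Agent.Y73.SH.mglob stMStep Pool.Agent.Y899.SH.mchart Pool.Agent.Y899.SH.cover

/-- **Directionally monotone homeomorphisms onto the ball.** -/
theorem stMCompact : StMCompact :=
  Pool.Agent.Y852.SH.mcompact stMGlob

end Pool.Agent.Y522
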