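import Pool.Agent.Y522.Compact
import Pool.Agent.Y522.DMono
import Pool.Agent.Y702.SH.ExtO
import Pool.Agent.Y702.SH.GlobV
import Pool.Agent.Y514.SH.Sch1
import Pool.Agent.Y514.SH.Sch2
import Pool.Agent.Y25.SH.StepV

/-!
# Project SH4 (Schoenflies): assembly
-/

set_option autoImplicit false

open Set Filter Topology Metric Function
open scoped Manifold ContDiff

noncomputable section

namespace Pool.Agent.Y522

theorem stSch1 : StSch1 := Pool.Agent.Y514.SH.sch1 hGlob Pool.Agent.Y702.SH.extO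

theorem stMStepV : StMStepV :=
  Pool.Agent.Y25.SH.mstepV Pool.Agent.Y954.SH.mollS
    (Pool.Agent.Y270.SH.mollP Pool.Agent.Y954.SH.mollS) Pool.Agent.Y977.SH.disp

theorem stMGlobV : StMGlobV :=
  Pool.Agent.Y702.SH.mglobV stMStepV Pool.Agent.Y899.SH.mchart Pool.Agent.Y702.SH.coverV

theorem stSch2 : StSch2 := Pool.Agent.Y514.SH.sch2 stMGlobV Pool.Agent.Y702.SH.extO

variable {n : ℕ}

/-- smooth with invertible derivative implies local diffeomorphism -/
theorem LD_of_bij {H : E n → E n} {x : E n} (h : ∀ᶠ y in 𝓝 x, ContDiffAt ℝ ∞ H y)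
    (hb : Bijective (fderiv ℝ H x)) : LD n H x := by
  have hd : DifferentiableAt ℝ H x := (h.self_of_nhds).differentiableAt (by simp)
  refine LD_of_contDiffAt h (ContinuousLinearEquiv.ofBijective (fderiv ℝ H x)
    (LinearMap.ker_eq_bot.2 hb.1) (LinearMap.range_eq_top.2 hb.2)) ?_
  exact hd.hasFDerivAt

theorem LD.bij {H : E n → E n} {x : E n} (h : LD n H x) :
    (∀ᶠ y in 𝓝 x, ContDiffAt ℝ ∞ H y) ∧ Bijective (fderiv ℝ H x) := by
  refine ⟨h.eventually.mono fun y hy => hy.contDiffAt, ?_⟩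
  obtain ⟨A, hA⟩ := h.exists_equiv
  rw [hA.fderiv]
  exact A.bijective

theorem contDiff_of_LD {G : E n → E n} (h : ∀ x, LD n G x) : ContDiff ℝ ∞ G :=
  contDiff_iff_contDiffAt.2 fun x => (h x).contDiffAt

/-- a bijective local diffeomorphism has a smooth inverse -/
theorem smooth_inverse {G : E n → E n} (hb : Bijective G) (h : ∀ x, LD n G x) :
    ContDiff ℝ ∞ G ∧ ∃ K : E n → E n, ContDiff ℝ ∞ K ∧ LeftInverse K G ∧ RightInverse K G := by
  obtain ⟨K, hK1, hK2⟩ := bijective_iff_has_inverse.1 hb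
  exact ⟨contDiff_of_LD h, K, contDiff_of_LD fun y => LD.inverse_bij hb h hK1 y, hK1, hK2⟩

end Pool.Agent.Y522
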