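import Mathlib

/-!
# Local diffeomorphisms and open embeddings: basic tools (project SH)
-/

set_option autoImplicit false

open Set Filter Topology Metric Function
open scoped Manifold ContDiff

noncomputable section

namespace Pool.Agent.Y522

/-- Euclidean space of dimension `n`. -/
abbrev E (n : ℕ) := EuclideanSpace ℝ (Fin n)

/-- `f` is a local diffeomorphism (smooth) at `x`; both spaces are manifolds modelled on `E n`. -/
abbrev LD (n : ℕ) {M N : Type*} [TopologicalSpace M] [ChartedSpace (E n) M]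
    [TopologicalSpace N] [ChartedSpace (E n) N] (f : M → N) (x : M) : Prop :=
  IsLocalDiffeomorphAt (𝓡 n) (𝓡 n) ∞ f x

section general

variable {n : ℕ} {M N P : Type*} [TopologicalSpace M] [ChartedSpace (E n) M]
    [TopologicalSpace N] [ChartedSpace (E n) N] [TopologicalSpace P] [ChartedSpace (E n) P]

theorem LD.comp' {g : N → P} {f : M → N} {x : M} (hg : LD n g (f x)) (hf : LD n f x) :
    LD n (g ∘ f) x := IsLocalDiffeomorphAt.comp (𝓡 n) P hf hg

theorem LD.comp_fun {g : N → P} {f : M → N} {x : M} (hg : LD n g (f x)) (hf : LD n f x) :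
    LD n (fun y => g (f y)) x := IsLocalDiffeomorphAt.comp (𝓡 n) P hf hg

theorem LD.contMDiffAt {f : M → N} {x : M} (hf : LD n f x) :
    ContMDiffAt (𝓡 n) (𝓡 n) ∞ f x := IsLocalDiffeomorphAt.contMDiffAt hf

theorem LD.continuousAt {f : M → N} {x : M} (hf : LD n f x) : ContinuousAt f x :=
  hf.contMDiffAt.continuousAt

/-- restrict a partial diffeomorphism to an open set -/
def restrPD (Φ : PartialDiffeomorph (𝓡 n) (𝓡 n) M N ∞) (s : Set M) (hs : IsOpen s) :
    PartialDiffeomorph (𝓡 n) (𝓡 n) M N ∞ where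
  toPartialEquiv := (Φ.toOpenPartialHomeomorph.restrOpen s hs).toPartialEquiv
  open_source := (Φ.toOpenPartialHomeomorph.restrOpen s hs).open_source
  open_target := (Φ.toOpenPartialHomeomorph.restrOpen s hs).open_target
  contMDiffOn_toFun := by
    apply Φ.contMDiffOn_toFun.mono
    intro x hx
    rw [OpenPartialHomeomorph.restrOpen_source] at hx
    exact hx.1
  contMDiffOn_invFun := by
    apply Φ.contMDiffOn_invFun.mono
    intro x hx
    exact hx.1

theorem LD.congr {f g : M → N} {x : M} (hf : LD n f x) (h : g =ᶠ[𝓝 x] f) : LD n g x := by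
  obtain ⟨Φ, hx, heq⟩ := hf
  obtain ⟨s, hs, hso, hxs⟩ := mem_nhds_iff.1 h
  refine ⟨restrPD Φ s hso, ?_, ?_⟩
  · change x ∈ (Φ.toOpenPartialHomeomorph.restrOpen s hso).source
    rw [OpenPartialHomeomorph.restrOpen_source]
    exact ⟨hx, hxs⟩
  · intro y hy
    change y ∈ (Φ.toOpenPartialHomeomorph.restrOpen s hso).source at hy
    rw [OpenPartialHomeomorph.restrOpen_source] at hy
    rw [hs hy.2, heq hy.1]
    rfl

theorem LD.id (x : M) : LD n (fun y : M => y) x :=
  ⟨{ toPartialEquiv := PartialEquiv.refl M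
     open_source := isOpen_univ
     open_target := isOpen_univ
     contMDiffOn_toFun := contMDiff_id.contMDiffOn
     contMDiffOn_invFun := contMDiff_id.contMDiffOn }, mem_univ _, fun _ _ => rfl⟩

theorem LD.eventually {f : M → N} {x : M} (hf : LD n f x) : ∀ᶠ y in 𝓝 x, LD n f y := by
  obtain ⟨Φ, hx, heq⟩ := hf
  filter_upwards [Φ.open_source.mem_nhds hx] with y hy
  exact ⟨Φ, hy, heq⟩

/-- a local diffeomorphism maps neighbourhoods to neighbourhoods -/
theorem LD.image_mem_nhds {f : M → N} {x : M} (hf : LD n f x) {s : Set M} (hs : s ∈ 𝓝 x) :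
    f '' s ∈ 𝓝 (f x) := by
  obtain ⟨Φ, hx, heq⟩ := hf
  have h1 := Φ.toOpenPartialHomeomorph.image_mem_nhds hx (Filter.inter_mem hs (Φ.open_source.mem_nhds hx))
  have h2 : (Φ.toOpenPartialHomeomorph : M → N) x = f x := (heq hx).symm
  rw [h2] at h1
  refine mem_of_superset h1 ?_
  rintro _ ⟨y, ⟨hy, hy'⟩, rfl⟩
  exact ⟨y, hy, heq hy'⟩

theorem LD.eventually_injOn {f : M → N} {x : M} (hf : LD n f x) :
    ∃ u ∈ 𝓝 x, InjOn f u := by
  obtain ⟨Φ, hx, heq⟩ := hf
  refine ⟨Φ.source, Φ.open_source.mem_nhds hx, ?_⟩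
  intro a ha b hb hab
  rw [heq ha, heq hb] at hab
  exact Φ.injOn ha hb hab

/-- images of open sets under maps which are local diffeomorphisms there are open -/
theorem isOpen_image_of_LD {f : M → N} {s : Set M} (hs : IsOpen s) (hf : ∀ x ∈ s, LD n f x) :
    IsOpen (f '' s) := by
  rw [isOpen_iff_mem_nhds]
  rintro _ ⟨x, hx, rfl⟩
  exact (hf x hx).image_mem_nhds (hs.mem_nhds hx)

/-- the inverse of an injective local diffeomorphism `k : N₀ → N` on an open set. -/
theorem LD.inverse {k : M → N} {U : Set M} (hU : IsOpen U)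
    (hk : ∀ x ∈ U, LD n k x) {g : N → M} (hg : ∀ x ∈ U, g (k x) = x) {x : M} (hx : x ∈ U) :
    LD n g (k x) := by
  obtain ⟨Φ, hxs, heq⟩ := hk x hx
  have h1 : LD n Φ.symm (k x) := by
    refine ⟨Φ.symm, ?_, fun _ _ => rfl⟩
    change k x ∈ Φ.target
    rw [heq hxs]
    exact Φ.map_source hxs
  refine h1.congr ?_
  have h2 : k '' (U ∩ Φ.source) ∈ 𝓝 (k x) :=
    (hk x hx).image_mem_nhds (Filter.inter_mem (hU.mem_nhds hx) (Φ.open_source.mem_nhds hxs))
  filter_upwards [h2] with y hy
  obtain ⟨z, ⟨hz1, hz2⟩, rfl⟩ := hy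
  rw [hg z hz1, heq hz2]
  exact (Φ.left_inv hz2).symm

/-- the inverse of a bijective local diffeomorphism -/
theorem LD.inverse_bij {k : M → N} (hb : Bijective k) (hk : ∀ x, LD n k x) {g : N → M}
    (hg : ∀ x, g (k x) = x) (y : N) : LD n g y := by
  obtain ⟨x, rfl⟩ := hb.2 y
  exact LD.inverse isOpen_univ (fun x _ => hk x) (fun x _ => hg x) (mem_univ x)

end general

section euclid

variable {n : ℕ}

theorem LD.contDiffAt {f : E n → E n} {x : E n} (hf : LD n f x) : ContDiffAt ℝ ∞ f x :=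
  contMDiffAt_iff_contDiffAt.1 hf.contMDiffAt

/-- inverse function theorem -/
theorem LD_of_contDiffAt {f : E n → E n} {x : E n} (hf : ∀ᶠ y in 𝓝 x, ContDiffAt ℝ ∞ f y)
    (A : E n ≃L[ℝ] E n) (hA : HasFDerivAt f (A : E n →L[ℝ] E n) x) : LD n f x := by
  have hn : (∞ : WithTop ℕ∞) ≠ 0 := by simp
  have hfx : ContDiffAt ℝ ∞ f x := hf.self_of_nhds
  set Φ := hfx.toOpenPartialHomeomorph f hA hn with hΦ
  have hxs : x ∈ Φ.source := hfx.mem_toOpenPartialHomeomorph_source hA hn
  have hcoe : (Φ : E n → E n) = f := hfx.toOpenPartialHomeomorph_coe hA hn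
  -- open set where the derivative is invertible
  have hfd : fderiv ℝ f x = A := hA.fderiv
  have hcont : ContinuousAt (fderiv ℝ f) x :=
    (hfx.fderiv_right (m := 0) (by simp)).continuousAt
  have h2 : ∀ᶠ y in 𝓝 x, fderiv ℝ f y ∈ range ((↑) : (E n ≃L[ℝ] E n) → (E n →L[ℝ] E n)) := by
    apply hcont
    rw [hfd]
    exact ContinuousLinearEquiv.nhds A
  obtain ⟨s, hs, hso, hxs'⟩ := _root_.eventually_nhds_iff.1 (hf.and h2)
  let Ψ := Φ.restrOpen s hso
  refine ⟨{ toPartialEquiv := Ψ.toPartialEquiv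
            open_source := Ψ.open_source
            open_target := Ψ.open_target
            contMDiffOn_toFun := ?_
            contMDiffOn_invFun := ?_ }, ?_, ?_⟩
  · intro y hy
    have hy' : y ∈ Ψ.source := hy
    rw [OpenPartialHomeomorph.restrOpen_source] at hy'
    have := (hs y hy'.2).1
    rw [← hcoe] at this
    exact (contMDiffAt_iff_contDiffAt.2 this).contMDiffWithinAt
  · intro z hz
    have hz' : z ∈ Ψ.target := hz
    have h4 : Ψ.symm z ∈ Ψ.source := Ψ.map_target hz'
    rw [OpenPartialHomeomorph.restrOpen_source] at h4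
    obtain ⟨h6, B, hB⟩ := hs _ h4.2
    have h7 : HasFDerivAt Ψ (B : E n →L[ℝ] E n) (Ψ.symm z) := by
      have h8 : (Ψ : E n → E n) = f := hcoe
      rw [h8, hB]
      exact (h6.differentiableAt hn).hasFDerivAt
    have h9 : ContDiffAt ℝ ∞ Ψ (Ψ.symm z) := by
      have h8 : (Ψ : E n → E n) = f := hcoe
      rw [h8]
      exact h6
    exact (contMDiffAt_iff_contDiffAt.2 (Ψ.contDiffAt_symm hz' h7 h9)).contMDiffWithinAt
  · change x ∈ Ψ.source
    rw [OpenPartialHomeomorph.restrOpen_source]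
    exact ⟨hxs, hxs'⟩
  · intro y hy
    change f y = Φ y
    rw [hcoe]

/-- the derivative of a local diffeomorphism is invertible -/
theorem LD.exists_equiv {f : E n → E n} {x : E n} (hf : LD n f x) :
    ∃ A : E n ≃L[ℝ] E n, HasFDerivAt f (A : E n →L[ℝ] E n) x := by
  obtain ⟨Φ, hx, heq⟩ := hf
  have h1 : ContDiffAt ℝ ∞ Φ.toFun x := contMDiffAt_iff_contDiffAt.1
    ((Φ.contMDiffOn_toFun x hx).contMDiffAt (Φ.open_source.mem_nhds hx))
  have h2 : ContDiffAt ℝ ∞ Φ.invFun (Φ.toFun x) := contMDiffAt_iff_contDiffAt.1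
    ((Φ.contMDiffOn_invFun _ (Φ.map_source hx)).contMDiffAt
      (Φ.open_target.mem_nhds (Φ.map_source hx)))
  have hd1 := (h1.differentiableAt (by simp)).hasFDerivAt
  have hd2 := (h2.differentiableAt (by simp)).hasFDerivAt
  have hc1 : (fderiv ℝ Φ.invFun (Φ.toFun x)).comp (fderiv ℝ Φ.toFun x) =
      ContinuousLinearMap.id ℝ (E n) := by
    have h3 := hd2.comp x hd1
    have h4 : HasFDerivAt (Φ.invFun ∘ Φ.toFun) (ContinuousLinearMap.id ℝ (E n)) x := by
      refine (hasFDerivAt_id x).congr_of_eventuallyEq ?_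
      filter_upwards [Φ.open_source.mem_nhds hx] with y hy
      exact Φ.left_inv hy
    exact h3.unique h4
  have hc2 : (fderiv ℝ Φ.toFun x).comp (fderiv ℝ Φ.invFun (Φ.toFun x)) =
      ContinuousLinearMap.id ℝ (E n) := by
    have h3' : HasFDerivAt Φ.toFun (fderiv ℝ Φ.toFun x) (Φ.invFun (Φ.toFun x)) := by
      rw [show Φ.invFun (Φ.toFun x) = x from Φ.left_inv hx]
      exact hd1
    have h3 := h3'.comp _ hd2
    have h4 : HasFDerivAt (Φ.toFun ∘ Φ.invFun) (ContinuousLinearMap.id ℝ (E n)) (Φ.toFun x) := by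
      refine (hasFDerivAt_id _).congr_of_eventuallyEq ?_
      filter_upwards [Φ.open_target.mem_nhds (Φ.map_source hx)] with y hy
      exact Φ.right_inv hy
    exact h3.unique h4
  refine ⟨ContinuousLinearEquiv.equivOfInverse (fderiv ℝ Φ.toFun x)
    (fderiv ℝ Φ.invFun (Φ.toFun x)) ?_ ?_, ?_⟩
  · intro v
    exact congrArg (fun L => L v) hc1
  · intro v
    exact congrArg (fun L => L v) hc2
  · have h5 : f =ᶠ[𝓝 x] Φ.toFun := by
      filter_upwards [Φ.open_source.mem_nhds hx] with y hy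
      exact heq hy
    exact hd1.congr_of_eventuallyEq h5

/-- a linear equivalence is a local diffeomorphism -/
theorem LD_linear (A : E n ≃L[ℝ] E n) (x : E n) : LD n (fun y => A y) x :=
  LD_of_contDiffAt (Eventually.of_forall fun _ => A.contDiff.contDiffAt) A A.hasFDerivAt

/-- a translation is a local diffeomorphism -/
theorem LD_add_const (v : E n) (x : E n) : LD n (fun y => y + v) x := by
  refine LD_of_contDiffAt
    (Eventually.of_forall fun _ => (contDiff_id.add contDiff_const).contDiffAt)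
    (ContinuousLinearEquiv.refl ℝ (E n)) ?_
  exact (hasFDerivAt_id x).add_const v

end euclid

/-! ### Splitting off the first coordinate -/

section split

variable {m : ℕ}

/-- `E (m+1) ≃ ℝ × E m` -/
def tl : E (m + 1) →L[ℝ] E m :=
  LinearMap.toContinuousLinearMap
    { toFun := fun z => WithLp.toLp 2 (fun i : Fin m => z i.succ)
      map_add' := fun x y => by ext i; simp
      map_smul' := fun c x => by ext i; simp }

/-- the vector with first coordinate `t` and tail `x` -/
def cn (t : ℝ) (x : E m) : E (m + 1) := WithLp.toLp 2 (Fin.cons t (fun i => x i) : Fin (m + 1) → ℝ)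

@[simp] theorem tl_apply (z : E (m + 1)) (i : Fin m) : tl z i = z i.succ := rfl

@[simp] theorem cn_zero (t : ℝ) (x : E m) : cn t x 0 = t := rfl

@[simp] theorem cn_succ (t : ℝ) (x : E m) (i : Fin m) : cn t x i.succ = x i := rfl

@[simp] theorem tl_cn (t : ℝ) (x : E m) : tl (cn t x) = x := by
  ext i; simp

@[simp] theorem cn_tl (z : E (m + 1)) : cn (z 0) (tl z) = z := by
  ext i
  refine Fin.cases ?_ (fun i => ?_) i <;> simp

/-- inclusion of the hyperplane -/
def inc : E m →L[ℝ] E (m + 1) :=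
  LinearMap.toContinuousLinearMap
    { toFun := fun x => cn 0 x
      map_add' := fun x y => by
        ext i
        refine Fin.cases ?_ (fun i => ?_) i <;> simp
      map_smul' := fun c x => by
        ext i
        refine Fin.cases ?_ (fun i => ?_) i <;> simp }

@[simp] theorem inc_apply (x : E m) : (inc : E m →L[ℝ] E (m + 1)) x = cn 0 x := rfl

/-- the first basis vector -/
def e0 : E (m + 1) := cn 1 0

theorem cn_eq (t : ℝ) (x : E m) : cn t x = t • e0 + cn 0 x := by
  ext i
  refine Fin.cases ?_ (fun i => ?_) i <;> simp [e0]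

theorem norm_cn_sq (t : ℝ) (x : E m) : ‖cn t x‖ ^ 2 = t ^ 2 + ‖x‖ ^ 2 := by
  rw [EuclideanSpace.norm_sq_eq, EuclideanSpace.norm_sq_eq, Fin.sum_univ_succ]
  simp [Real.norm_eq_abs, sq_abs]

theorem norm_sq_split (z : E (m + 1)) : ‖z‖ ^ 2 = (z 0) ^ 2 + ‖tl z‖ ^ 2 := by
  conv_lhs => rw [← cn_tl z]
  rw [norm_cn_sq]

theorem abs_head_le (z : E (m + 1)) : |z 0| ≤ ‖z‖ := by
  have h := norm_sq_split z
  have h1 : (z 0) ^ 2 ≤ ‖z‖ ^ 2 := by nlinarith [norm_nonneg (tl z)]
  exact abs_le_of_sq_le_sq h1 (norm_nonneg _)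

theorem norm_tl_le (z : E (m + 1)) : ‖tl z‖ ≤ ‖z‖ := by
  have h := norm_sq_split z
  have h1 : ‖tl z‖ ^ 2 ≤ ‖z‖ ^ 2 := by nlinarith [sq_nonneg (z 0)]
  exact le_of_sq_le_sq h1 (norm_nonneg _)

/-- the box of radius `R` and height `η` -/
def box (m : ℕ) (R η : ℝ) : Set (E (m + 1)) := {z | ‖tl z‖ ≤ R ∧ |z 0| ≤ η}

theorem continuous_head : Continuous (fun z : E (m + 1) => z 0) := by fun_prop

theorem continuous_cn : Continuous (fun p : ℝ × E m => cn p.1 p.2) := by
  have : (fun p : ℝ × E m => cn p.1 p.2) = fun p : ℝ × E m => p.1 • (e0 : E (m + 1)) + inc p.2 := by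
    funext p
    rw [cn_eq, inc_apply]
  rw [this]
  fun_prop

theorem isCompact_box (R η : ℝ) : IsCompact (box m R η) := by
  have h : box m R η = (fun p : ℝ × E m => cn p.1 p.2) '' (Icc (-η) η ×ˢ closedBall (0 : E m) R) := by
    ext z
    constructor
    · rintro ⟨h1, h2⟩
      refine ⟨(z 0, tl z), ⟨abs_le.1 h2, by simpa using h1⟩, cn_tl z⟩
    · rintro ⟨p, ⟨h1, h2⟩, rfl⟩
      refine ⟨by simpa using h2, by simpa using abs_le.2 h1⟩
  rw [h]
  exact (isCompact_Icc.prod (isCompact_closedBall _ _)).image continuous_cn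

end split

/-! ### Embeddable sets and engulfing -/

section defs

variable (n : ℕ) {X : Type*} [TopologicalSpace X] [ChartedSpace (E n) X]

/-- a neighbourhood of `K` embeds smoothly in `E n` -/
def Emb (K : Set X) : Prop :=
  ∃ (U : Set X) (k : X → E n), IsOpen U ∧ K ⊆ U ∧ InjOn k U ∧ ∀ x ∈ U, LD n k x

/-- every compact set is contained in an open subset diffeomorphic to `E n` -/
def Eng (X : Type*) [TopologicalSpace X] [ChartedSpace (E n) X] : Prop :=
  ∀ K : Set X, IsCompact K → ∃ g : E n → X, Injective g ∧ (∀ x, LD n g x) ∧ K ⊆ range g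

end defs

end Pool.Agent.Y522
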