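import Pool.Agent.Y522.Stm2

/-!
# Statements of the lemmas of project SH, third part: thin exceptional sets
-/

set_option autoImplicit false

open Set Filter Topology Metric Function MeasureTheory
open scoped Manifold ContDiff

noncomputable section

namespace Pool.Agent.Y522

/-- A proper map to `ℝ^n` which is a smooth homeomorphism over the complement of a closed set `Y`
all of whose bounded pieces have coordinate projections with empty interior, and all of whose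
fibres have neighbourhoods which embed smoothly in `ℝ^n`. -/
structure ThinMap (n : ℕ) {X : Type} [TopologicalSpace X] [ChartedSpace (E n) X]
    (f : X → E n) (Y : Set (E n)) : Prop where
  proper : IsProperMap f
  closed : IsClosed Y
  thin : ∀ (i : Fin n) (R : ℝ), interior ((fun y : E n => y i) '' (Y ∩ closedBall 0 R)) = ∅
  smooth : ∀ x, f x ∉ Y → ContMDiffAt (𝓡 n) (𝓡 n) ∞ f x
  bij : ∀ y, y ∉ Y → ∃! x, f x = y
  fib : ∀ y, Emb n (f ⁻¹' {y})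

/-- The gluing lemma, local smoothness only. -/
def StSum3 : Prop :=
  ∀ (m : ℕ) (X : Type) [TopologicalSpace X] [T2Space X] [ChartedSpace (E (m + 1)) X]
    [IsManifold (𝓡 (m + 1)) ∞ X] (W : Set X) (L : Set X) (φ : X → ℝ) (f : E m → X),
    Continuous φ → (∀ x, ∀ᶠ y in 𝓝 (f x), ContMDiffAt (𝓡 (m + 1)) 𝓘(ℝ, ℝ) ∞ φ y) →
    IsCompact L → L ⊆ W →
    Injective f → ContMDiff (𝓡 m) (𝓡 (m + 1)) ∞ f →
    (∀ x, Injective (mfderiv (𝓡 m) (𝓡 (m + 1)) f x)) →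
    (∀ x, φ (f x) = 0) → (∀ x, mfderiv (𝓡 (m + 1)) 𝓘(ℝ, ℝ) φ (f x) ≠ 0) → (∀ x, f x ∈ W) →
    (∀ x ∈ L, φ x = 0 → x ∈ range f) →
    (∀ K : Set X, IsCompact K → K ⊆ W → (∀ x ∈ K, φ x ≤ 0) → Emb (m + 1) K) →
    (∀ K : Set X, IsCompact K → K ⊆ W → (∀ x ∈ K, 0 ≤ φ x) → Emb (m + 1) K) →
    Emb (m + 1) L

/-- The Mazur lemma, local smoothness only. -/
def StMazur3 : Prop :=
  ∀ (m : ℕ) (N : Set (E (m + 1))) (φ : E (m + 1) → ℝ) (s₀ : E (m + 1)), IsOpen N →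
    ContinuousOn φ N → (∀ z ∈ N, φ z = 0 → ∀ᶠ y in 𝓝 z, ContDiffAt ℝ ∞ φ y) →
    IsCompact {z | z ∈ N ∧ φ z ≤ 0} →
    (∀ z ∈ N, φ z = 0 → fderiv ℝ φ z ≠ 0) → s₀ ∈ N → φ s₀ = 0 →
    (∀ K : Set (E (m + 1)), IsCompact K → (∀ z ∈ K, z ∈ N ∧ φ z = 0 ∧ z ≠ s₀) →
      ∃ (f : E m → E (m + 1)) (R : ℝ), Injective f ∧ ContDiff ℝ ∞ f ∧
        (∀ x, Injective (fderiv ℝ f x)) ∧
        (∀ x, f x ∈ N ∧ φ (f x) = 0 ∧ f x ≠ s₀) ∧ K ⊆ f '' closedBall 0 R) →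
    ∀ L : Set (E (m + 1)), IsCompact L → (∀ z ∈ L, z ∈ N ∧ φ z < 0) →
      ∃ g : E (m + 1) → E (m + 1), Injective g ∧ (∀ x, LD (m + 1) g x) ∧ L ⊆ range g ∧
        ∀ x, g x ∈ N ∧ φ (g x) < 0

/-- The Mazur lemma, local smoothness only, for hypersurfaces which are flat near the origin. -/
def StMazurFlat3 : Prop :=
  ∀ (m : ℕ) (N : Set (E (m + 1))) (φ : E (m + 1) → ℝ) (ρ : ℝ), 0 < ρ → IsOpen N →
    ContinuousOn φ N → (∀ z ∈ N, φ z = 0 → ∀ᶠ y in 𝓝 z, ContDiffAt ℝ ∞ φ y) →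
    IsCompact {z | z ∈ N ∧ φ z ≤ 0} →
    (∀ z ∈ N, φ z = 0 → fderiv ℝ φ z ≠ 0) →
    (∀ z, ‖z‖ ≤ 2 * ρ → z ∈ N ∧ (φ z < 0 ↔ z 0 < 0) ∧ (φ z = 0 ↔ z 0 = 0)) →
    (∀ K : Set (E (m + 1)), IsCompact K → (∀ z ∈ K, z ∈ N ∧ φ z = 0 ∧ z ≠ 0) →
      ∃ (f : E m → E (m + 1)) (R : ℝ), Injective f ∧ ContDiff ℝ ∞ f ∧
        (∀ x, Injective (fderiv ℝ f x)) ∧
        (∀ x, f x ∈ N ∧ φ (f x) = 0 ∧ f x ≠ 0) ∧ K ⊆ f '' closedBall 0 R) →
    ∀ L : Set (E (m + 1)), IsCompact L → (∀ z ∈ L, z ∈ N ∧ φ z < 0 ∧ 2 * ρ < ‖z‖) →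
      ∃ g : E (m + 1) → E (m + 1), Injective g ∧ (∀ x, LD (m + 1) g x) ∧ L ⊆ range g ∧
        ∀ x, g x ∈ N ∧ φ (g x) < 0

/-- All compact subsets of `X` embed (thin maps). -/
def StBox3 (m : ℕ) : Prop :=
  ∀ (X : Type) [TopologicalSpace X] [T2Space X] [SecondCountableTopology X]
    [ChartedSpace (E (m + 1)) X] [IsManifold (𝓡 (m + 1)) ∞ X] (f : X → E (m + 1))
    (Y : Set (E (m + 1))), ThinMap (m + 1) f Y → ∀ K : Set X, IsCompact K → Emb (m + 1) K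

/-- All compact subsets of `X` are engulfed (thin maps). -/
def StEng3 (m : ℕ) : Prop :=
  ∀ (X : Type) [TopologicalSpace X] [T2Space X] [SecondCountableTopology X]
    [ChartedSpace (E (m + 1)) X] [IsManifold (𝓡 (m + 1)) ∞ X] (f : X → E (m + 1))
    (Y : Set (E (m + 1))), ThinMap (m + 1) f Y → Eng (m + 1) X

end Pool.Agent.Y522
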