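import Pool.Agent.Y522.Mazur
import Pool.Agent.Y522.Stm3

/-!
# The Mazur lemma (flat case) for functions which are smooth only near the hypersurface
-/

set_option autoImplicit false

open Set Filter Topology Metric Function MeasureTheory
open scoped Manifold ContDiff

noncomputable section

namespace Pool.Agent.Y522

/-- **Mazur lemma, flat case.** -/
theorem stMazurFlat3 (hC : StCollar) (hCo : StCompress) (hMo : StMoebius) (hP : StPush) :
    StMazurFlat3 := by
  intro m N φ ρ hρ hN hφc hφ hB hd hflat heng L hL hLN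
  set B : Set (E (m + 1)) := {z | z ∈ N ∧ φ z ≤ 0} with hBdef
  have hBcl : IsClosed B := hB.isClosed
  have hint : IsOpen {z | z ∈ N ∧ φ z < 0} := by
    have := hφc.isOpen_inter_preimage hN isOpen_Iio (t := Iio 0)
    exact this
  -- the push
  obtain ⟨r, hr, hrρ, κ, hκb, hκd, hκ1, hκ2, hκ3⟩ := hP m (2 * ρ) (by linarith)
  have hκball : ∀ z, ‖z‖ < 2 * ρ → ‖κ z‖ < 2 * ρ := by
    intro z hz
    by_contra hcon
    have h1 := hκb.1 (hκ1 (κ z) (not_lt.1 hcon))
    rw [h1] at hcon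
    exact hcon hz
  obtain ⟨μ, c, hc0, hcρ, hμi, hμd, ⟨τ, hτ, hτc, hμτ⟩, hμ2, hμ3⟩ := hMo m ρ r hρ hr
  have hcB : c ∈ B := by
    have := hflat c (by linarith)
    exact ⟨this.1, (this.2.1.2 hc0).le⟩
  -- outside of B
  have hout : ∀ z, z ∉ B → 0 < z 0 ∨ ρ ≤ ‖z‖ := by
    intro z hz
    by_contra hcon
    push Not at hcon
    have h1 := hflat z (by linarith [hcon.2])
    rcases hcon.1.lt_or_eq with h | h
    · exact hz ⟨h1.1, (h1.2.1.2 h).le⟩
    · exact hz ⟨h1.1, (h1.2.2.2 h).le⟩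
  have hposB : ∀ z, 0 < z 0 → ‖z‖ < r → z ∉ B := by
    intro z hz hz' hzB
    have h1 := hflat z (by linarith)
    rcases hzB.2.lt_or_eq with h | h
    · exact absurd (h1.2.1.1 h) (not_lt.2 hz.le)
    · exact absurd (h1.2.2.1 h) hz.ne'
  -- the compact set
  set τ₁ := min (τ / 2) r with hτ₁
  have hτ₁pos : 0 < τ₁ := lt_min (by linarith) hr
  have hτ₁τ : τ₁ < τ := (min_le_left _ _).trans_lt (by linarith)
  set K₁ : Set (E (m + 1)) := (B \ {z | z ∈ N ∧ φ z < 0}) \ ball 0 τ₁ with hK₁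
  have hK₁c : IsCompact K₁ := (hB.diff hint).diff isOpen_ball
  have hK₁' : ∀ z ∈ K₁, z ∈ N ∧ φ z = 0 ∧ z ≠ 0 := by
    rintro z ⟨⟨hz1, hz2⟩, hz3⟩
    refine ⟨hz1.1, le_antisymm hz1.2 ?_, ?_⟩
    · by_contra hcon
      exact hz2 ⟨hz1.1, not_le.1 hcon⟩
    · rintro rfl
      exact hz3 (by simpa using hτ₁pos)
  obtain ⟨f, R₀, hfi, hf, hfd, hfN, hfK⟩ := heng K₁ hK₁c hK₁'
  -- collar
  have hN' : IsOpen ((N \ L) ∩ interior {y | ContDiffAt ℝ ∞ φ y}) :=
    (hN.sdiff hL.isClosed).inter isOpen_interior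
  set R := max R₀ 0 + 1 with hR
  have hRpos : 0 < R := by positivity
  obtain ⟨η, hη, F, hF1, hF2, hF3, hF4⟩ := hC m f φ
    ((N \ L) ∩ interior {y | ContDiffAt ℝ ∞ φ y}) R hRpos hN' (fun z hz => interior_subset hz.2)
    (fun x _ => Eventually.of_forall fun y => hf.contDiffAt) hfi.injOn (fun x _ => hfd x)
    (fun x _ => ⟨⟨(hfN x).1, fun h => by
      have := (hLN _ h).2.1
      rw [(hfN x).2.1] at this
      exact lt_irrefl _ this⟩, mem_interior_iff_mem_nhds.2 (hφ _ (hfN x).1 (hfN x).2.1)⟩)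
    (fun x _ => Eventually.of_forall fun y => (hfN y).2.1)
    (fun x _ => hd _ (hfN x).1 (hfN x).2.1)
  have hboxc : IsCompact (F '' box m R η) := by
    refine (isCompact_box R η).image_of_continuousOn ?_
    intro z hz
    exact (hF3 z hz).1.continuousAt.continuousWithinAt
  -- the small ball
  set s := f 0 with hs
  have hFo : IsOpen (F '' {z : E (m + 1) | ‖tl z‖ < R ∧ |z 0| < η}) := by
    refine isOpen_image_of_LD ?_ fun z hz => (hF3 z ⟨hz.1.le, hz.2.le⟩).1
    exact (isOpen_lt (tl.continuous.norm) continuous_const).inter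
      (isOpen_lt (continuous_head.abs) continuous_const)
  have hsF : s ∈ F '' {z : E (m + 1) | ‖tl z‖ < R ∧ |z 0| < η} :=
    ⟨cn 0 0, ⟨by simpa using hRpos, by simpa using hη⟩, by rw [hF1 0 (by simpa using hRpos.le)]⟩
  obtain ⟨t, ht, htF⟩ : ∃ t : ℝ, 0 < t ∧ closedBall s t ⊆ F '' box m R η := by
    obtain ⟨t, ht, htF⟩ := Metric.nhds_basis_closedBall.mem_iff.1 (hFo.mem_nhds hsF)
    refine ⟨t, ht, htF.trans (image_mono ?_)⟩
    intro z hz
    exact ⟨hz.1.le, hz.2.le⟩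
  obtain ⟨τ', hτ', hτ'f⟩ : ∃ τ' : ℝ, 0 < τ' ∧ ∀ q : E m, ‖q‖ < τ' → ‖q‖ ≤ R ∧ f q ∈ ball s t := by
    have h1 : ∀ᶠ q in 𝓝 (0 : E m), f q ∈ ball s t :=
      hf.continuous.continuousAt (isOpen_ball.mem_nhds (by simpa [hs] using ht))
    obtain ⟨ε, hε, hε'⟩ := Metric.eventually_nhds_iff.1 h1
    refine ⟨min ε R, lt_min hε hRpos, fun q hq => ⟨(hq.trans_le (min_le_right _ _)).le, ?_⟩⟩
    apply hε'
    rw [dist_zero_right]
    exact hq.trans_le (min_le_left _ _)
  obtain ⟨Λ, hΛb, hΛd, hΛ1, hΛ2, hΛ3⟩ := hCo m (E (m + 1)) F R η hRpos hη hF2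
    (fun z hz => (hF3 z hz).1) (max R₀ 0) (by linarith) τ' hτ'
  obtain ⟨Λi, hΛi1, hΛi2⟩ : ∃ Λi : E (m + 1) → E (m + 1), (∀ x, Λi (Λ x) = x) ∧
      ∀ x, Λ (Λi x) = x :=
    ⟨(Equiv.ofBijective Λ hΛb).symm, (Equiv.ofBijective Λ hΛb).symm_apply_apply,
      (Equiv.ofBijective Λ hΛb).apply_symm_apply⟩
  have hΛid : ∀ x, LD (m + 1) Λi x := fun x => LD.inverse_bij hΛb hΛd hΛi1 x
  have hΛiout : ∀ x, x ∉ F '' box m R η → Λi x = x := by
    intro x hx
    have := hΛi1 x
    rwa [hΛ1 x hx] at this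
  have hΛK : ∀ x ∈ K₁, Λ x ∈ ball s t := by
    intro x hx
    obtain ⟨y, hy, rfl⟩ := hfK hx
    have hy' : ‖y‖ ≤ R₀ := by simpa using hy
    have hy'' : ‖y‖ ≤ max R₀ 0 := hy'.trans (le_max_left _ _)
    obtain ⟨q, hq, hqe⟩ := hΛ3 y hy''
    rw [hF1 y (by linarith), hF1 q (hτ'f q hq).1] at hqe
    rw [hqe]
    exact (hτ'f q hq).2
  obtain ⟨ν, hν1, hν2, hν3, hν4, hν5⟩ := hμ3 s t ht
  have hνB : ν s ∉ B := hposB _ hν3 hν4
  -- the map J
  obtain ⟨J, hJ1, hJ2⟩ : ∃ J : E (m + 1) → E (m + 1), (∀ x, x ∈ B → J x = x) ∧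
      ∀ x, x ∉ B → J x = μ x := by
    classical
    refine ⟨fun x => if x ∈ B then x else μ x, ?_, ?_⟩
    · intro x hx
      simp [hx]
    · intro x hx
      simp [hx]
  have hJB : ∀ x, x ∉ B → J x ∉ B := by
    intro x hx
    rw [hJ2 x hx]
    have := hμ2 x (hout x hx)
    exact hposB _ this.1 this.2
  have hJi : Injective J := by
    intro x y hxy
    by_cases hx : x ∈ B
    · by_cases hy : y ∈ B
      · rwa [hJ1 x hx, hJ1 y hy] at hxy
      · exact absurd hx (by
          rw [← hJ1 x hx, hxy]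
          exact hJB y hy)
    · by_cases hy : y ∈ B
      · exact absurd hy (by
          rw [← hJ1 y hy, ← hxy]
          exact hJB x hx)
      · rw [hJ2 x hx, hJ2 y hy] at hxy
        have hxc : x ∈ {z | z ≠ c} := fun h => hx (by
          have h' : x = c := h
          rw [h']; exact hcB)
        have hyc : y ∈ {z | z ≠ c} := fun h => hy (by
          have h' : y = c := h
          rw [h']; exact hcB)
        exact hμi hxc hyc hxy
  have hJd : ∀ x, x ∉ K₁ → LD (m + 1) J x := by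
    intro x hx
    by_cases hxB : x ∈ B
    · by_cases hxi : x ∈ N ∧ φ x < 0
      · refine (LD.id x).congr ?_
        filter_upwards [hint.mem_nhds hxi] with y hy
        exact hJ1 y ⟨hy.1, hy.2.le⟩
      · have hxb : x ∈ ball (0 : E (m + 1)) τ₁ := by
          by_contra hcon
          exact hx ⟨⟨hxB, hxi⟩, hcon⟩
        refine (LD.id x).congr ?_
        filter_upwards [isOpen_ball.mem_nhds hxb] with y hy
        by_cases hyB : y ∈ B
        · exact hJ1 y hyB
        · rw [hJ2 y hyB]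
          refine hμτ y ?_
          have : ‖y‖ < τ₁ := by simpa using hy
          linarith
    · have hxc : x ≠ c := fun h => hxB (h ▸ hcB)
      refine (hμd x hxc).congr ?_
      filter_upwards [hBcl.isOpen_compl.mem_nhds hxB] with y hy
      exact hJ2 y hy
  -- κ maps into the interior
  have hκin : ∀ z, (‖z‖ ≤ r ∨ (z ∈ N ∧ φ z < 0)) → κ z ∈ N ∧ φ (κ z) < 0 := by
    intro z hz
    rcases lt_or_ge ‖z‖ (2 * ρ) with h | h
    · have h1 := hκball z h
      have h2 := hflat _ h1.le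
      refine ⟨h2.1, h2.2.1.2 ?_⟩
      rcases hz with hz | hz
      · exact hκ3 z hz
      · exact (hκ2 z).trans_lt ((hflat z h.le).2.1.1 hz.2)
    · rcases hz with hz | hz
      · linarith
      · rw [hκ1 z h]
        exact hz
  have hκJ : ∀ x, x ∉ K₁ → κ (J x) ∈ N ∧ φ (κ (J x)) < 0 := by
    intro x hx
    apply hκin
    by_cases hxB : x ∈ B
    · rw [hJ1 x hxB]
      by_cases hxi : x ∈ N ∧ φ x < 0
      · exact Or.inr hxi
      · left
        have hxb : x ∈ ball (0 : E (m + 1)) τ₁ := by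
          by_contra hcon
          exact hx ⟨⟨hxB, hxi⟩, hcon⟩
        have : ‖x‖ < τ₁ := by simpa using hxb
        exact this.le.trans (min_le_right _ _)
    · left
      rw [hJ2 x hxB]
      exact (hμ2 x (hout x hxB)).2.le
  -- the points outside of the small ball
  have hnotK : ∀ w, w ∉ ball s t → Λi w ∉ K₁ := by
    intro w hw hcon
    have := hΛK _ hcon
    rw [hΛi2] at this
    exact hw this
  have hivball : ∀ u, u ∈ ball s t → u ≠ s → ivs s t u ∉ ball s t := by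
    intro u hu hus
    have h1 : ‖u - s‖ < t := by simpa [dist_eq_norm] using hu
    have h2 : 0 < ‖u - s‖ := norm_pos_iff.2 (sub_ne_zero.2 hus)
    rw [mem_ball, dist_eq_norm, norm_ivs, not_lt, le_div_iff₀ h2]
    nlinarith
  -- the map Ψ
  obtain ⟨Ψ, hΨ1, hΨ2⟩ : ∃ Ψ : E (m + 1) → E (m + 1), Ψ s = κ (ν s) ∧
      ∀ u, u ≠ s → Ψ u = κ (J (Λi (ivs s t u))) := by
    classical
    refine ⟨fun u => if u = s then κ (ν s) else κ (J (Λi (ivs s t u))), ?_, ?_⟩
    · simp
    · intro u hu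
      simp [hu]
  have hνne : ∀ x, J x ≠ ν s := by
    intro x hx
    by_cases hxB : x ∈ B
    · rw [hJ1 x hxB] at hx
      exact hνB (hx ▸ hxB)
    · rw [hJ2 x hxB] at hx
      exact hν5 x (fun h => hxB (h ▸ hcB)) hx
  have hΨi : InjOn Ψ (ball s t) := by
    intro u hu v hv huv
    by_cases hus : u = s
    · by_cases hvs : v = s
      · rw [hus, hvs]
      · exfalso
        rw [hus, hΨ1, hΨ2 v hvs] at huv
        exact hνne _ (hκb.1 huv).symm
    · by_cases hvs : v = s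
      · exfalso
        rw [hvs, hΨ1, hΨ2 u hus] at huv
        exact hνne _ (hκb.1 huv)
      · rw [hΨ2 u hus, hΨ2 v hvs] at huv
        have h1 := hJi (hκb.1 huv)
        have h2 : ivs s t u = ivs s t v := by
          rw [← hΛi2 (ivs s t u), h1, hΛi2]
        rw [← ivs_ivs s ht u, h2, ivs_ivs s ht v]
  have hΨd : ∀ u ∈ ball s t, LD (m + 1) Ψ u := by
    intro u hu
    by_cases hus : u = s
    · subst hus
      -- far away
      obtain ⟨M, hM⟩ := (hboxc.union hB).isBounded.subset_closedBall s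
      have hev : ∀ᶠ v in 𝓝 s, v ≠ s → ivs s t v ∉ F '' box m R η ∪ B := by
        have h1 : 0 < t ^ 2 / (|M| + 1) := by positivity
        filter_upwards [ball_mem_nhds s h1] with v hv hvs hcon
        have h2 : ‖v - s‖ < t ^ 2 / (|M| + 1) := by simpa [dist_eq_norm] using hv
        have h3 : 0 < ‖v - s‖ := norm_pos_iff.2 (sub_ne_zero.2 hvs)
        have h4 : ‖ivs s t v - s‖ ≤ M := by simpa [dist_eq_norm] using hM hcon
        rw [norm_ivs, div_le_iff₀ h3] at h4
        rw [lt_div_iff₀ (by positivity)] at h2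
        nlinarith [le_abs_self M, abs_nonneg M]
      have h1 : LD (m + 1) (fun v => κ (ν v)) s := LD.comp_fun (hκd _) hν1
      refine h1.congr ?_
      have hν2' : ∀ᶠ v in 𝓝 s, v ≠ s → ν v = μ (s + (t / ‖v - s‖) ^ 2 • (v - s)) :=
        eventually_nhdsWithin_iff.1 hν2
      filter_upwards [hev, hν2'] with v hv hv'
      by_cases hvs : v = s
      · rw [hvs, hΨ1]
      · rw [hΨ2 v hvs, hv' hvs]
        have h2 := hv hvs
        have h3 : ivs s t v ∉ F '' box m R η := fun h => h2 (Or.inl h)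
        have h4 : ivs s t v ∉ B := fun h => h2 (Or.inr h)
        rw [hΛiout _ h3, hJ2 _ h4]
        rfl
    · have h1 : LD (m + 1) (fun v => κ (J (Λi (ivs s t v)))) u := by
        have h2 : LD (m + 1) (fun v => Λi (ivs s t v)) u := LD.comp_fun (hΛid _) (ivs_LD s ht hus)
        have h3 : LD (m + 1) (fun v => J (Λi (ivs s t v))) u :=
          LD.comp_fun (hJd _ (hnotK _ (hivball u hu hus))) h2
        exact LD.comp_fun (hκd _) h3
      refine h1.congr ?_
      filter_upwards [isOpen_ne.mem_nhds hus] with v hv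
      exact hΨ2 v hv
  have hΨN : ∀ u ∈ ball s t, Ψ u ∈ N ∧ φ (Ψ u) < 0 := by
    intro u hu
    by_cases hus : u = s
    · rw [hus, hΨ1]
      exact hκin _ (Or.inl hν4.le)
    · rw [hΨ2 u hus]
      exact hκJ _ (hnotK _ (hivball u hu hus))
  obtain ⟨b, hbi, hbd, hbr⟩ := exists_ball_diffeo s ht
  have hbmem : ∀ x, b x ∈ ball s t := fun x => by
    rw [← hbr]
    exact mem_range_self x
  refine ⟨fun x => Ψ (b x), ?_, ?_, ?_, ?_⟩
  · intro x y hxy
    exact hbi (hΨi (hbmem x) (hbmem y) hxy)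
  · intro x
    exact LD.comp_fun (hΨd _ (hbmem x)) (hbd x)
  · intro z hz
    have hzL := hLN z hz
    have hzF : z ∉ F '' box m R η := by
      rintro ⟨w, hw, rfl⟩
      exact (hF3 w hw).2.1.2 hz
    have hzb : z ∉ closedBall s t := fun h => hzF (htF h)
    have hzs : z ≠ s := fun h => hzb (by rw [h]; simpa using ht.le)
    have h1 : t < ‖z - s‖ := by simpa [dist_eq_norm] using hzb
    have h2 : ivs s t z ∈ ball s t := by
      rw [mem_ball, dist_eq_norm, norm_ivs, div_lt_iff₀ (ht.trans h1)]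
      nlinarith
    rw [← hbr] at h2
    obtain ⟨x, hx⟩ := h2
    refine ⟨x, ?_⟩
    change Ψ (b x) = z
    rw [hx, hΨ2 _ (ivs_ne s ht hzs), ivs_ivs s ht, hΛiout z hzF, hJ1 z ⟨hzL.1, hzL.2.1.le⟩,
      hκ1 z hzL.2.2.le]
  · intro x
    exact hΨN _ (hbmem x)

end Pool.Agent.Y522
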