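import Pool.Agent.Y522.Sum3
import Pool.Agent.Y522.Mazur3
import Pool.Agent.Y67.SH.Sard
import Pool.Agent.Y248.SH.Germ
import Pool.Agent.Y900.SH.Moebius
import Pool.Agent.Y496.SH.Compress
import Pool.Agent.Y496.SH.Mono
import Pool.Agent.Y784.SH.Collar
import Pool.Agent.Y784.SH.Ext
import Pool.Agent.Y641.SH.Level
import Pool.Agent.Y252.SH.Slice
import Pool.Agent.Y228.SH.MazurRed
import Pool.Agent.Y419.SH.MazurRed3
import Pool.Agent.Y691.SH.Box

/-!
# Smooth homeomorphisms onto `ℝ^n`: assembly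
-/

set_option autoImplicit false

open Set Filter Topology Metric Function MeasureTheory
open scoped Manifold ContDiff

noncomputable section

namespace Pool.Agent.Y522

theorem hMoebius : StMoebius := Pool.Agent.Y900.SH.moebius Pool.Agent.Y248.SH.germ

theorem hSum : StSum :=
  stSum Pool.Agent.Y784.SH.collar Pool.Agent.Y496.SH.compress Pool.Agent.Y248.SH.germ hMoebius

theorem hSum3 : StSum3 :=
  stSum3 Pool.Agent.Y784.SH.collar Pool.Agent.Y496.SH.compress Pool.Agent.Y248.SH.germ hMoebius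

theorem hFlat : StMazurFlat :=
  stMazurFlat Pool.Agent.Y784.SH.collar Pool.Agent.Y496.SH.compress hMoebius
    Pool.Agent.Y248.SH.push

theorem hFlat3 : StMazurFlat3 :=
  stMazurFlat3 Pool.Agent.Y784.SH.collar Pool.Agent.Y496.SH.compress hMoebius
    Pool.Agent.Y248.SH.push

theorem hMazur2 : StMazur2 :=
  Pool.Agent.Y228.SH.mazurRed Pool.Agent.Y641.SH.stAdapt Pool.Agent.Y248.SH.germ hFlat

theorem hMazur3 : StMazur3 :=
  Pool.Agent.Y419.SH.mazurRed3 Pool.Agent.Y641.SH.stAdapt Pool.Agent.Y248.SH.germ hFlat3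

theorem hSlice : StSlice :=
  Pool.Agent.Y252.SH.slice Pool.Agent.Y641.SH.stLevel Pool.Agent.Y641.SH.stAdapt

theorem hMono : StMonotone :=
  Pool.Agent.Y496.SH.monotone (Pool.Agent.Y784.SH.ext Pool.Agent.Y248.SH.germ)

theorem stEng_zero : StEng 0 := by
  intro X _ _ _ H hH K hK
  refine ⟨H.symm, H.symm.injective, fun x => ?_, fun y _ => H.symm.surjective y⟩
  have hs : Subsingleton X := H.toEquiv.subsingleton
  refine ⟨{ toPartialEquiv := H.symm.toEquiv.toPartialEquiv
            open_source := isOpen_univ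
            open_target := isOpen_univ
            contMDiffOn_toFun := ?_
            contMDiffOn_invFun := hH.contMDiffOn }, mem_univ _, fun _ _ => rfl⟩
  have h1 : (H.symm : E 0 → X) = fun _ => H.symm 0 := by
    funext y
    exact Subsingleton.elim _ _
  change ContMDiffOn (𝓡 0) (𝓡 0) ∞ (H.symm : E 0 → X) _
  rw [h1]
  exact contMDiffOn_const

/-- **Engulfing for smooth homeomorphisms in all dimensions.** -/
theorem stEng_all : ∀ n, StEng n
  | 0 => stEng_zero
  | m + 1 => Pool.Agent.Y691.SH.sphereStep Pool.Agent.Y67.SH.sardM hSlice hMazur2 m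
      (stEng_all m) (Pool.Agent.Y691.SH.boxStep Pool.Agent.Y67.SH.sardM hSlice hSum m (stEng_all m))

/-- a manifold with a smooth homeomorphism onto `ℝ^n` is diffeomorphic to `ℝ^n` -/
theorem diffeo_of_smooth_homeo (n : ℕ) (X : Type) [TopologicalSpace X] [ChartedSpace (E n) X]
    [IsManifold (𝓡 n) ∞ X] (H : X ≃ₜ E n) (hH : ContMDiff (𝓡 n) (𝓡 n) ∞ H) :
    Nonempty (Diffeomorph (𝓡 n) (𝓡 n) X (E n) ∞) := by
  have : T2Space X := H.symm.t2Space
  have : SigmaCompactSpace X := H.isClosedEmbedding.sigmaCompactSpace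
  exact hMono n X (stEng_all n X H hH)

end Pool.Agent.Y522
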