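import Pool.Agent.Y522.Stm

/-!
# Statements of the lemmas of project SH, second part
-/

set_option autoImplicit false

open Set Filter Topology Metric Function MeasureTheory
open scoped Manifold ContDiff

noncomputable section

namespace Pool.Agent.Y522

/-- Compact subsets of a regular level set which is homeomorphic to `ℝ^m` by the restriction of a
smooth map are engulfed by smoothly immersed injective copies of `ℝ^m` in the level set. -/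
def StSlice : Prop :=
  ∀ (m : ℕ), StEng m → ∀ (X : Type) [TopologicalSpace X] [ChartedSpace (E (m + 1)) X]
    [IsManifold (𝓡 (m + 1)) ∞ X] (W : Set X) (φ : X → ℝ) (T : X → E m) (T' : E m → X), IsOpen W →
    (∀ x ∈ W, ContMDiffAt (𝓡 (m + 1)) 𝓘(ℝ, ℝ) ∞ φ x) →
    (∀ x ∈ W, φ x = 0 → mfderiv (𝓡 (m + 1)) 𝓘(ℝ, ℝ) φ x ≠ 0) →
    (∀ x ∈ W, φ x = 0 → ContMDiffAt (𝓡 (m + 1)) (𝓡 m) ∞ T x) → Continuous T' →
    (∀ y, T' y ∈ W ∧ φ (T' y) = 0) → (∀ y, T (T' y) = y) →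
    (∀ x ∈ W, φ x = 0 → T' (T x) = x) → ∀ K : Set X, IsCompact K →
    (∀ x ∈ K, x ∈ W ∧ φ x = 0) → ∃ (f : E m → X) (R : ℝ), Injective f ∧
      ContMDiff (𝓡 m) (𝓡 (m + 1)) ∞ f ∧
      (∀ x, Injective (mfderiv (𝓡 m) (𝓡 (m + 1)) f x)) ∧
      (∀ x, f x ∈ W ∧ φ (f x) = 0) ∧ K ⊆ f '' closedBall 0 R

/-- All compact subsets of `X` embed. -/
def StBox (m : ℕ) : Prop :=
  ∀ (X : Type) [TopologicalSpace X] [ChartedSpace (E (m + 1)) X] [IsManifold (𝓡 (m + 1)) ∞ X]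
    (H : X ≃ₜ E (m + 1)), ContMDiff (𝓡 (m + 1)) (𝓡 (m + 1)) ∞ H → ∀ K : Set X, IsCompact K →
    Emb (m + 1) K

/-- The Mazur lemma. -/
def StMazur2 : Prop :=
  ∀ (m : ℕ) (N : Set (E (m + 1))) (φ : E (m + 1) → ℝ) (s₀ : E (m + 1)), IsOpen N →
    (∀ z ∈ N, ContDiffAt ℝ ∞ φ z) → IsCompact {z | z ∈ N ∧ φ z ≤ 0} →
    (∀ z ∈ N, φ z = 0 → fderiv ℝ φ z ≠ 0) → s₀ ∈ N → φ s₀ = 0 →
    (∀ K : Set (E (m + 1)), IsCompact K → (∀ z ∈ K, z ∈ N ∧ φ z = 0 ∧ z ≠ s₀) →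
      ∃ (f : E m → E (m + 1)) (R : ℝ), Injective f ∧ ContDiff ℝ ∞ f ∧
        (∀ x, Injective (fderiv ℝ f x)) ∧
        (∀ x, f x ∈ N ∧ φ (f x) = 0 ∧ f x ≠ s₀) ∧ K ⊆ f '' closedBall 0 R) →
    ∀ L : Set (E (m + 1)), IsCompact L → (∀ z ∈ L, z ∈ N ∧ φ z < 0) →
      ∃ g : E (m + 1) → E (m + 1), Injective g ∧ (∀ x, LD (m + 1) g x) ∧ L ⊆ range g ∧
        ∀ x, g x ∈ N ∧ φ (g x) < 0

/-- The Mazur lemma for hypersurfaces which are flat near the origin. -/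
def StMazurFlat : Prop :=
  ∀ (m : ℕ) (N : Set (E (m + 1))) (φ : E (m + 1) → ℝ) (ρ : ℝ), 0 < ρ → IsOpen N →
    (∀ z ∈ N, ContDiffAt ℝ ∞ φ z) → IsCompact {z | z ∈ N ∧ φ z ≤ 0} →
    (∀ z ∈ N, φ z = 0 → fderiv ℝ φ z ≠ 0) →
    (∀ z, ‖z‖ ≤ 2 * ρ → z ∈ N ∧ (φ z < 0 ↔ z 0 < 0) ∧ (φ z = 0 ↔ z 0 = 0)) →
    (∀ K : Set (E (m + 1)), IsCompact K → (∀ z ∈ K, z ∈ N ∧ φ z = 0 ∧ z ≠ 0) →
      ∃ (f : E m → E (m + 1)) (R : ℝ), Injective f ∧ ContDiff ℝ ∞ f ∧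
        (∀ x, Injective (fderiv ℝ f x)) ∧
        (∀ x, f x ∈ N ∧ φ (f x) = 0 ∧ f x ≠ 0) ∧ K ⊆ f '' closedBall 0 R) →
    ∀ L : Set (E (m + 1)), IsCompact L → (∀ z ∈ L, z ∈ N ∧ φ z < 0 ∧ 2 * ρ < ‖z‖) →
      ∃ g : E (m + 1) → E (m + 1), Injective g ∧ (∀ x, LD (m + 1) g x) ∧ L ⊆ range g ∧
        ∀ x, g x ∈ N ∧ φ (g x) < 0

end Pool.Agent.Y522
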