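import Pool.Agent.Y522.Stm

/-!
# Project SH2: homeomorphisms with `n - 1` smooth linear coordinates (statements)
-/

set_option autoImplicit false

open Set Filter Topology Metric Function MeasureTheory
open scoped Manifold ContDiff

noncomputable section

namespace Pool.Agent.Y522

section defs

variable (m : ℕ) {X : Type} [TopologicalSpace X] [ChartedSpace (E (m + 1)) X]

/-- `F` is smooth near `x` -/
def SmN (F : X → E (m + 1)) (x : X) : Prop :=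
  ∀ᶠ y in 𝓝 x, ContMDiffAt (𝓡 (m + 1)) (𝓡 (m + 1)) ∞ F y

/-- near `x` the map `F` has `m` smooth independent linear coordinates -/
def Coord (F : X → E (m + 1)) (x : X) : Prop :=
  ∃ P : E (m + 1) →L[ℝ] E m,
    (∀ᶠ y in 𝓝 x, ContMDiffAt (𝓡 (m + 1)) (𝓡 m) ∞ (fun y => P (F y)) y) ∧
    Surjective (mfderiv (𝓡 (m + 1)) (𝓡 m) (fun y => P (F y)) x)

/-- A box in normal form for `F`: in the coordinates `A` of the domain and `L` of the target the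
map is `z ↦ (g z, tl z + b)`, where `g` is strictly increasing in `z 0`. -/
structure NBox (F : X → E (m + 1)) (A : E (m + 1) → X) (L : E (m + 1) ≃L[ℝ] E (m + 1))
    (b : E m) : Prop where
  inj : InjOn A (box m 1 1)
  ld : ∀ z ∈ box m 1 1, LD (m + 1) A z
  sm : ∀ z ∈ box m 1 1,
    ∀ᶠ y in 𝓝 (A z), ContMDiffAt (𝓡 (m + 1)) (𝓡 m) ∞ (fun y => tl (L (F y))) y
  eq : ∀ z ∈ box m 1 1, tl (L (F (A z))) = tl z + b
  mono : ∀ z ∈ box m 1 1, ∀ z' ∈ box m 1 1, tl z = tl z' → z 0 < z' 0 →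
    (L (F (A z))) 0 < (L (F (A z'))) 0

end defs

/-- Smoothing of a function which is strictly increasing in the first variable. -/
def StBlend : Prop :=
  ∀ (m : ℕ) (R R₁ T T₁ : ℝ), 0 < R₁ → R₁ < R → 0 < T₁ → T₁ < T →
    ∀ g : E (m + 1) → ℝ, ContinuousOn g (box m R T) →
    (∀ z ∈ box m R T, ∀ z' ∈ box m R T, tl z = tl z' → z 0 < z' 0 → g z < g z') →
    ∀ O : Set (E (m + 1)), IsCompact O → O ⊆ box m R T →
    (∀ z ∈ O, ∀ᶠ y in 𝓝 z, ContDiffAt ℝ ∞ g y) → ∀ η : ℝ, 0 < η →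
    ∃ g' : E (m + 1) → ℝ,
      (∀ z, z ∉ box m ((R + R₁) / 2) ((T + T₁) / 2) → g' z = g z) ∧
      ContinuousOn g' (box m R T) ∧
      (∀ z ∈ box m R T, ∀ z' ∈ box m R T, tl z = tl z' → z 0 < z' 0 → g' z < g' z') ∧
      (∀ z ∈ box m R₁ T₁, (∀ᶠ y in 𝓝 z, ContDiffAt ℝ ∞ g' y) ∧ 0 < fderiv ℝ g' z e0) ∧
      (∀ z ∈ box m R T, (∀ᶠ y in 𝓝 z, ContDiffAt ℝ ∞ g y) →
        (∀ᶠ y in 𝓝 z, ContDiffAt ℝ ∞ g' y) ∧ (0 < fderiv ℝ g z e0 → 0 < fderiv ℝ g' z e0)) ∧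
      (∀ z ∈ box m R T, |g' z - g z| ≤ η) ∧
      ∀ z ∈ O, ‖fderiv ℝ g' z - fderiv ℝ g z‖ ≤ η

/-- Straightening a map to `ℝ^m` which is `C¹`-close to the projection. -/
def StStraight : Prop :=
  ∀ (m : ℕ) (q : E (m + 1) → E m), (∀ z ∈ box m 1 1, ∀ᶠ y in 𝓝 z, ContDiffAt ℝ ∞ q y) →
    (∀ z ∈ box m 1 1, ‖q z - tl z‖ ≤ 1 / 8) → (∀ z ∈ box m 1 1, ‖fderiv ℝ q z - tl‖ ≤ 1 / 8) →
    ∃ Θ : E (m + 1) → E (m + 1),
      (∀ w ∈ box m (3 / 4) (3 / 4), Θ w ∈ box m (7 / 8) (3 / 4) ∧ (Θ w) 0 = w 0 ∧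
        q (Θ w) = tl w ∧ LD (m + 1) Θ w) ∧
      InjOn Θ (box m (3 / 4) (3 / 4)) ∧
      ∀ z ∈ box m (5 / 8) (3 / 4), cn (z 0) (q z) ∈ box m (3 / 4) (3 / 4) ∧
        Θ (cn (z 0) (q z)) = z

/-- Boxes in normal form exist. -/
def StNBox : Prop :=
  ∀ (m : ℕ) (X : Type) [TopologicalSpace X] [ChartedSpace (E (m + 1)) X]
    [IsManifold (𝓡 (m + 1)) ∞ X] (F : X → E (m + 1)), Continuous F → Injective F → ∀ x : X,
    Coord m F x → ∃ (A : E (m + 1) → X) (L : E (m + 1) ≃L[ℝ] E (m + 1)) (b : E m),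
      A 0 = x ∧ NBox m F A L b

/-- One step of the smoothing. -/
def StStep : Prop :=
  ∀ (m : ℕ) (X : Type) [TopologicalSpace X] [T2Space X] [ChartedSpace (E (m + 1)) X]
    [IsManifold (𝓡 (m + 1)) ∞ X] (F₀ : X → E (m + 1)) (A : E (m + 1) → X)
    (L : E (m + 1) ≃L[ℝ] E (m + 1)) (b : E m), Continuous F₀ → NBox m F₀ A L b →
    ∃ η : ℝ, 0 < η ∧ ∀ F : X → E (m + 1), Continuous F → Injective F →
      (∀ p, ‖F p - F₀ p‖ ≤ η) →
      (∀ z ∈ box m 1 1,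
        ∀ᶠ y in 𝓝 (A z), ContMDiffAt (𝓡 (m + 1)) (𝓡 m) ∞ (fun y => tl (L (F y))) y) →
      (∀ z ∈ box m 1 1, ‖fderiv ℝ (fun w => tl (L (F (A w)))) z - tl‖ ≤ η) →
      ∀ (N : ℕ) (B : Fin N → E (m + 1) → X) (O : Fin N → Set (E (m + 1))),
      (∀ j, IsCompact (O j)) → (∀ j, ∀ z ∈ O j, LD (m + 1) (B j) z ∧ SmN m F (B j z)) →
      ∀ ε : ℝ, 0 < ε → ∃ F' : X → E (m + 1), Continuous F' ∧ Injective F' ∧
        range F' = range F ∧ (∀ p, p ∉ A '' box m 1 1 → F' p = F p) ∧ (∀ p, ‖F' p - F p‖ ≤ ε) ∧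
        (∀ p, tl (L (F' p)) = tl (L (F p))) ∧ (∀ p, SmN m F p → SmN m F' p) ∧
        (∀ p, LD (m + 1) F p → LD (m + 1) F' p) ∧
        (∀ z ∈ box m (1 / 4) (1 / 4), LD (m + 1) F' (A z)) ∧
        ∀ j, ∀ z ∈ O j,
          ‖fderiv ℝ (fun w => F' (B j w)) z - fderiv ℝ (fun w => F (B j w)) z‖ ≤ ε

/-- Smoothing of injective maps with `m` smooth independent linear coordinates. -/
def StGlob : Prop :=
  ∀ (m : ℕ) (X : Type) [TopologicalSpace X] [T2Space X] [ChartedSpace (E (m + 1)) X]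
    [IsManifold (𝓡 (m + 1)) ∞ X] (F : X → E (m + 1)), Continuous F → Injective F →
    (∀ x, ¬ LD (m + 1) F x → Coord m F x) → IsCompact {x | ¬ LD (m + 1) F x} →
    ∃ (F' : X → E (m + 1)) (C : Set X), IsCompact C ∧ Continuous F' ∧ Injective F' ∧
      range F' = range F ∧ (∀ p, p ∉ C → F' p = F p) ∧ ∀ x, LD (m + 1) F' x

/-- The compact case: a homeomorphism onto the ball which is a diffeomorphism near the boundary and
has `m` smooth independent linear coordinates near every interior point. -/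
def StCompactCase : Prop :=
  ∀ (m : ℕ) (M N : Type) [TopologicalSpace M] [TopologicalSpace N]
    [ChartedSpace (EuclideanHalfSpace (m + 1)) M] [ChartedSpace (EuclideanHalfSpace (m + 1)) N]
    [IsManifold (𝓡∂ (m + 1)) ∞ M] [IsManifold (𝓡∂ (m + 1)) ∞ N]
    (h : M ≃ₜ closedBall (0 : E (m + 1)) 1) (j : N ≃ₜ closedBall (0 : E (m + 1)) 1),
    (∀ y ∈ (𝓡∂ (m + 1)).interior N,
      IsLocalDiffeomorphAt (𝓡∂ (m + 1)) (𝓡 (m + 1)) ∞ (fun y => (j y : E (m + 1))) y) →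
    (∀ x ∉ (𝓡∂ (m + 1)).interior M,
      IsLocalDiffeomorphAt (𝓡∂ (m + 1)) (𝓡∂ (m + 1)) ∞ (fun x => j.symm (h x)) x) →
    (∀ x ∈ (𝓡∂ (m + 1)).interior M, ∃ P : E (m + 1) →L[ℝ] E m,
      (∀ᶠ y in 𝓝 x, ContMDiffAt (𝓡∂ (m + 1)) (𝓡 m) ∞ (fun y => P (h y)) y) ∧
      Surjective (mfderiv (𝓡∂ (m + 1)) (𝓡 m) (fun y => P (h y)) x)) →
    Nonempty (Diffeomorph (𝓡∂ (m + 1)) (𝓡∂ (m + 1)) M N ∞)

end Pool.Agent.Y522
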