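import Pool.Agent.Y522.Basic

/-!
# Statements of the lemmas of project SH (smooth homeomorphisms)
-/

set_option autoImplicit false

open Set Filter Topology Metric Function MeasureTheory
open scoped Manifold ContDiff

noncomputable section

namespace Pool.Agent.Y522

/-- Morse-Sard for smooth real functions on open sets of `ℝ^n`. -/
def StSard : Prop :=
  ∀ (n : ℕ) (U : Set (E n)), IsOpen U → ∀ f : E n → ℝ, (∀ x ∈ U, ContDiffAt ℝ ∞ f x) →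
    volume (f '' {x | x ∈ U ∧ fderiv ℝ f x = 0}) = 0

/-- Morse-Sard for smooth real functions on manifolds. -/
def StSardM : Prop :=
  ∀ (n : ℕ) (X : Type) [TopologicalSpace X] [SecondCountableTopology X] [ChartedSpace (E n) X]
    [IsManifold (𝓡 n) ∞ X] (f : X → ℝ), ContMDiff (𝓡 n) 𝓘(ℝ, ℝ) ∞ f →
    volume (f '' {x | mfderiv (𝓡 n) 𝓘(ℝ, ℝ) f x = 0}) = 0

/-- A germ of a local diffeomorphism tangent to the identity extends to a diffeomorphism which is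
the identity outside a small ball (with a convex interpolation formula). -/
def StGerm : Prop :=
  ∀ (n : ℕ) (p : E n → E n), (∀ᶠ y in 𝓝 (0 : E n), ContDiffAt ℝ ∞ p y) → p 0 = 0 →
    HasFDerivAt p (ContinuousLinearMap.id ℝ (E n)) 0 → ∀ ε : ℝ, 0 < ε →
    ∃ (G : E n → E n) (χ : E n → ℝ), Bijective G ∧ (∀ x, LD n G x) ∧
      (∀ᶠ y in 𝓝 (0 : E n), G y = p y) ∧ (∀ y, ε ≤ ‖y‖ → χ y = 0) ∧
      (∀ y, 0 ≤ χ y ∧ χ y ≤ 1) ∧ ∀ y, G y = y + χ y • (p y - y)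

/-- A small push in the direction `-e0`. -/
def StPush : Prop :=
  ∀ (m : ℕ) (ρ : ℝ), 0 < ρ → ∃ r : ℝ, 0 < r ∧ r < ρ ∧ ∃ κ : E (m + 1) → E (m + 1),
    Bijective κ ∧ (∀ x, LD (m + 1) κ x) ∧ (∀ z, ρ ≤ ‖z‖ → κ z = z) ∧
    (∀ z, (κ z) 0 ≤ z 0) ∧ (∀ z, ‖z‖ ≤ r → (κ z) 0 < 0)

/-- A modified parabolic Moebius map, with its behaviour at infinity. -/
def StMoebius : Prop :=
  ∀ (m : ℕ) (ρ r : ℝ), 0 < ρ → 0 < r → ∃ (μ : E (m + 1) → E (m + 1)) (c : E (m + 1)),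
    c 0 < 0 ∧ ‖c‖ < ρ ∧ InjOn μ {z | z ≠ c} ∧ (∀ z, z ≠ c → LD (m + 1) μ z) ∧
    (∃ τ : ℝ, 0 < τ ∧ τ ≤ ‖c‖ ∧ ∀ z, ‖z‖ < τ → μ z = z) ∧
    (∀ z, (0 < z 0 ∨ ρ ≤ ‖z‖) → 0 < (μ z) 0 ∧ ‖μ z‖ < r) ∧
    ∀ (s : E (m + 1)) (t : ℝ), 0 < t → ∃ ν : E (m + 1) → E (m + 1), LD (m + 1) ν s ∧
      (∀ᶠ u in 𝓝[≠] s, ν u = μ (s + (t / ‖u - s‖) ^ 2 • (u - s))) ∧
      0 < (ν s) 0 ∧ ‖ν s‖ < r ∧ ∀ z, z ≠ c → μ z ≠ ν s

/-- Compression inside a flow box. -/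
def StCompress : Prop :=
  ∀ (m : ℕ) (X : Type) [TopologicalSpace X] [T2Space X] [ChartedSpace (E (m + 1)) X]
    [IsManifold (𝓡 (m + 1)) ∞ X] (F : E (m + 1) → X) (R η : ℝ), 0 < R → 0 < η →
    InjOn F (box m R η) → (∀ z ∈ box m R η, LD (m + 1) F z) →
    ∀ R' : ℝ, R' < R → ∀ τ : ℝ, 0 < τ → ∃ Λ : X → X, Bijective Λ ∧ (∀ x, LD (m + 1) Λ x) ∧
      (∀ x, x ∉ F '' (box m R η) → Λ x = x) ∧
      (∀ z ∈ box m R η, ∃ q : E m, ‖q‖ ≤ R ∧ Λ (F z) = F (cn (z 0) q)) ∧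
      (∀ y : E m, ‖y‖ ≤ R' → ∃ q : E m, ‖q‖ < τ ∧ Λ (F (cn 0 y)) = F (cn 0 q))

/-- Collars of compact pieces of hypersurfaces given by an equation. -/
def StCollar : Prop :=
  ∀ (m : ℕ) (g : E m → E (m + 1)) (ψ : E (m + 1) → ℝ) (N : Set (E (m + 1))) (R : ℝ), 0 < R →
    IsOpen N → (∀ z ∈ N, ContDiffAt ℝ ∞ ψ z) →
    (∀ x, ‖x‖ ≤ R → ∀ᶠ y in 𝓝 x, ContDiffAt ℝ ∞ g y) →
    InjOn g (closedBall 0 R) → (∀ x, ‖x‖ ≤ R → Injective (fderiv ℝ g x)) →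
    (∀ x, ‖x‖ ≤ R → g x ∈ N) → (∀ x, ‖x‖ ≤ R → ∀ᶠ y in 𝓝 x, ψ (g y) = 0) →
    (∀ x, ‖x‖ ≤ R → fderiv ℝ ψ (g x) ≠ 0) →
    ∃ η : ℝ, 0 < η ∧ ∃ F : E (m + 1) → E (m + 1), (∀ x, ‖x‖ ≤ R → F (cn 0 x) = g x) ∧
      InjOn F (box m R η) ∧ (∀ z ∈ box m R η, LD (m + 1) F z ∧ F z ∈ N) ∧
      ∀ z ∈ box m R η, (0 < z 0 → 0 < ψ (F z)) ∧ (z 0 < 0 → ψ (F z) < 0)

/-- Palais' extension theorem: an open embedding of `ℝ^n` into itself agrees on every ball with a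
diffeomorphism of `ℝ^n`. -/
def StExt : Prop :=
  ∀ (n : ℕ) (g : E n → E n), Injective g → (∀ x, LD n g x) → ∀ R : ℝ,
    ∃ G : E n → E n, Bijective G ∧ (∀ x, LD n G x) ∧ ∀ x, ‖x‖ ≤ R → G x = g x

/-- Smooth monotone union theorem. -/
def StMonotone : Prop :=
  ∀ (n : ℕ) (X : Type) [TopologicalSpace X] [T2Space X] [SigmaCompactSpace X]
    [ChartedSpace (E n) X] [IsManifold (𝓡 n) ∞ X], Eng n X →
    Nonempty (Diffeomorph (𝓡 n) (𝓡 n) X (E n) ∞)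

/-- A subset which is smoothly locally flat (a hypersurface). -/
def LocFlat (m : ℕ) {X : Type} [TopologicalSpace X] [ChartedSpace (E (m + 1)) X] (S : Set X) :
    Prop :=
  ∀ x ∈ S, ∃ e : X → E (m + 1), LD (m + 1) e x ∧ ∀ᶠ y in 𝓝 x, (y ∈ S ↔ (e y) 0 = 0)

/-- Locally flat subsets are manifolds. -/
def StLevel : Prop :=
  ∀ (m : ℕ) (X : Type) [TopologicalSpace X] [ChartedSpace (E (m + 1)) X]
    [IsManifold (𝓡 (m + 1)) ∞ X] (S : Set X), LocFlat m S →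
    ∃ (_ : ChartedSpace (E m) S), IsManifold (𝓡 m) ∞ S ∧
      ContMDiff (𝓡 m) (𝓡 (m + 1)) ∞ (Subtype.val : S → X) ∧
      ∀ s : S, Injective (mfderiv (𝓡 m) (𝓡 (m + 1)) (Subtype.val : S → X) s)

/-- Functions with non-zero differential are coordinates. -/
def StAdapt : Prop :=
  ∀ (m : ℕ) (X : Type) [TopologicalSpace X] [ChartedSpace (E (m + 1)) X]
    [IsManifold (𝓡 (m + 1)) ∞ X] (f : X → ℝ) (x : X),
    (∀ᶠ y in 𝓝 x, ContMDiffAt (𝓡 (m + 1)) 𝓘(ℝ, ℝ) ∞ f y) →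
    mfderiv (𝓡 (m + 1)) 𝓘(ℝ, ℝ) f x ≠ 0 →
    ∃ e : X → E (m + 1), LD (m + 1) e x ∧ e x = 0 ∧ ∀ᶠ y in 𝓝 x, (e y) 0 = f y - f x

/-- The interior of a smooth ball-like manifold with boundary, with a smooth homeomorphism onto
the closed ball, as a manifold without boundary with a smooth homeomorphism onto `ℝ^n`. -/
def StBoundary : Prop :=
  ∀ (M : Type) [TopologicalSpace M] [ChartedSpace (EuclideanHalfSpace 4) M]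
    [IsManifold (𝓡∂ 4) ∞ M] (h : M ≃ₜ closedBall (0 : E 4) 1),
    ContMDiff (𝓡∂ 4) (𝓡 4) ∞ (fun x => (h x : E 4)) →
    ∃ (X : Type) (_ : TopologicalSpace X) (_ : ChartedSpace (E 4) X), IsManifold (𝓡 4) ∞ X ∧
      ∃ j : X → M, Injective j ∧ range j = (𝓡∂ 4).interior M ∧
        (∀ x, IsLocalDiffeomorphAt (𝓡 4) (𝓡∂ 4) ∞ j x) ∧
        ∃ H : X ≃ₜ E 4, ContMDiff (𝓡 4) (𝓡 4) ∞ H

/-- The gluing lemma. -/
def StSum : Prop :=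
  ∀ (m : ℕ) (X : Type) [TopologicalSpace X] [T2Space X] [ChartedSpace (E (m + 1)) X]
    [IsManifold (𝓡 (m + 1)) ∞ X] (W : Set X) (L : Set X) (φ : X → ℝ) (f : E m → X),
    ContMDiff (𝓡 (m + 1)) 𝓘(ℝ, ℝ) ∞ φ → IsCompact L → L ⊆ W →
    Injective f → ContMDiff (𝓡 m) (𝓡 (m + 1)) ∞ f →
    (∀ x, Injective (mfderiv (𝓡 m) (𝓡 (m + 1)) f x)) →
    (∀ x, φ (f x) = 0) → (∀ x, mfderiv (𝓡 (m + 1)) 𝓘(ℝ, ℝ) φ (f x) ≠ 0) → (∀ x, f x ∈ W) →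
    (∀ x ∈ L, φ x = 0 → x ∈ range f) →
    (∀ K : Set X, IsCompact K → K ⊆ W → (∀ x ∈ K, φ x ≤ 0) → Emb (m + 1) K) →
    (∀ K : Set X, IsCompact K → K ⊆ W → (∀ x ∈ K, 0 ≤ φ x) → Emb (m + 1) K) →
    Emb (m + 1) L

/-- The Mazur lemma: interiors of compact domains in `ℝ^n` bounded by hypersurfaces which are
engulfed away from a point. -/
def StMazur : Prop :=
  ∀ (m : ℕ) (N : Set (E (m + 1))) (φ : E (m + 1) → ℝ) (s₀ : E (m + 1)), IsOpen N →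
    (∀ z ∈ N, ContDiffAt ℝ ∞ φ z) → IsCompact {z | z ∈ N ∧ φ z ≤ 0} →
    (∀ z ∈ N, φ z = 0 → fderiv ℝ φ z ≠ 0) → s₀ ∈ N → φ s₀ = 0 →
    (∀ K : Set (E (m + 1)), IsCompact K → (∀ z ∈ K, z ∈ N ∧ φ z = 0 ∧ z ≠ s₀) →
      ∃ f : E m → E (m + 1), Injective f ∧ ContDiff ℝ ∞ f ∧ (∀ x, Injective (fderiv ℝ f x)) ∧
        (∀ x, f x ∈ N ∧ φ (f x) = 0 ∧ f x ≠ s₀) ∧ K ⊆ range f) →
    ∀ L : Set (E (m + 1)), IsCompact L → (∀ z ∈ L, z ∈ N ∧ φ z < 0) →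
      ∃ g : E (m + 1) → E (m + 1), Injective g ∧ (∀ x, LD (m + 1) g x) ∧ L ⊆ range g ∧
        ∀ x, g x ∈ N ∧ φ (g x) < 0

/-- All compact subsets of a manifold with a smooth homeomorphism onto `ℝ^n` are engulfed. -/
def StEng (n : ℕ) : Prop :=
  ∀ (X : Type) [TopologicalSpace X] [ChartedSpace (E n) X] [IsManifold (𝓡 n) ∞ X]
    (H : X ≃ₜ E n), ContMDiff (𝓡 n) (𝓡 n) ∞ H → Eng n X

end Pool.Agent.Y522
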