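import Pool.Agent.Y522.Stm3

/-!
# Statements of project SH, fourth part: the results
-/

set_option autoImplicit false

open Set Filter Topology Metric Function MeasureTheory
open scoped Manifold ContDiff

noncomputable section

namespace Pool.Agent.Y522

/-- Manifolds with a thin map onto `ℝ^4` are diffeomorphic to `ℝ^4`. -/
def StThin4 : Prop :=
  ∀ (X : Type) [TopologicalSpace X] [T2Space X] [SecondCountableTopology X]
    [ChartedSpace (E 4) X] [IsManifold (𝓡 4) ∞ X] (f : X → E 4)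
    (Y : Set (E 4)), ThinMap 4 f Y → Nonempty (Diffeomorph (𝓡 4) (𝓡 4) X (E 4) ∞)

/-- Compact manifolds with boundary: maps to `D^4` which are smooth homeomorphisms over the
complement (in the open ball) of a closed set of zero length, with embeddable fibres. -/
def StD4 : Prop :=
  ∀ (M : Type) [TopologicalSpace M] [T2Space M] [CompactSpace M]
    [ChartedSpace (EuclideanHalfSpace 4) M] [IsManifold (𝓡∂ 4) ∞ M] (f : M → E 4)
    (Y : Set (E 4)), Continuous f → IsClosed Y → μH[1] Y = 0 →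
    (∀ x, x ∈ (𝓡∂ 4).interior M ↔ ‖f x‖ < 1) →
    (∀ x, ‖f x‖ < 1 → f x ∉ Y → ContMDiffAt (𝓡∂ 4) (𝓡 4) ∞ f x) →
    (∀ y : E 4, ‖y‖ < 1 → y ∉ Y → ∃! x, f x = y) →
    (∀ y ∈ Y, ‖y‖ < 1 → ∃ (U : Set M) (k : M → E 4), IsOpen U ∧ f ⁻¹' {y} ⊆ U ∧ InjOn k U ∧
      ∀ x ∈ U, IsLocalDiffeomorphAt (𝓡∂ 4) (𝓡 4) ∞ k x) →
    ∃ g : E 4 → M, Injective g ∧ range g = (𝓡∂ 4).interior M ∧
      IsLocalDiffeomorph (𝓡 4) (𝓡∂ 4) ∞ g

/-- Compact manifolds with boundary: homeomorphisms onto `D^4` which are smooth off the preimage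
of a closed set of zero length. -/
def StD4H : Prop :=
  ∀ (M : Type) [TopologicalSpace M] [ChartedSpace (EuclideanHalfSpace 4) M]
    [IsManifold (𝓡∂ 4) ∞ M] (h : M ≃ₜ closedBall (0 : E 4) 1)
    (Y : Set (E 4)), IsClosed Y → μH[1] Y = 0 →
    (∀ x ∈ (𝓡∂ 4).interior M, (h x : E 4) ∉ Y →
      ContMDiffAt (𝓡∂ 4) (𝓡 4) ∞ (fun x => (h x : E 4)) x) →
    ∃ g : E 4 → M, Injective g ∧ range g = (𝓡∂ 4).interior M ∧
      IsLocalDiffeomorph (𝓡 4) (𝓡∂ 4) ∞ g

end Pool.Agent.Y522
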