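import Pool.Agent.Y522.Stm5

/-!
# Project SH3: directionally monotone homeomorphisms (statements)
-/

set_option autoImplicit false

open Set Filter Topology Metric Function MeasureTheory
open scoped Manifold ContDiff

noncomputable section

namespace Pool.Agent.Y522

/-- the bump function used for mollifying -/
def bmp (n : ℕ) : ContDiffBump (0 : E n) := ⟨1 / 2, 1, by norm_num, by norm_num⟩

/-- the kernel: smooth, even, non-negative, of integral one, positive exactly on the open unit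
ball -/
def kr (n : ℕ) : E n → ℝ := (bmp n).normed volume

/-- mollification of `G` with the variable radius `c` -/
def Moll (n : ℕ) {V : Type} [NormedAddCommGroup V] [NormedSpace ℝ V] (G : E n → V)
    (c : E n → ℝ) (z : E n) : V :=
  ∫ s, kr n s • G (z + c z • s)

section defs

variable (n : ℕ) {X : Type} [TopologicalSpace X] [ChartedSpace (E n) X]

/-- `F` is directionally monotone at `x`: in a smooth parametrization `A` around `x`, for every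
direction `v` there is a linear functional `ℓ` such that `ℓ ∘ F` is strictly increasing near `x` in
all directions near `v`. -/
def DMon (F : X → E n) (x : X) : Prop :=
  ∃ A : E n → X, A 0 = x ∧ LD n A 0 ∧ ∀ v : E n, v ≠ 0 → ∃ (r : ℝ) (ℓ : E n →L[ℝ] ℝ), 0 < r ∧
    ∀ p q : E n, ‖p‖ ≤ r → ‖q‖ ≤ r → ∀ t : ℝ, 0 < t → ‖q - p - t • v‖ ≤ r * t →
      ℓ (F (A p)) < ℓ (F (A q))

/-- uniform version on the ball of radius `ρ`, aperture `κ` -/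
def MBox (F : X → E n) (A : E n → X) (ρ κ : ℝ) : Prop :=
  ∀ u : E n, ‖u‖ = 1 → ∃ ℓ : E n →L[ℝ] ℝ, ∀ p q : E n, ‖p‖ ≤ ρ → ‖q‖ ≤ ρ → ∀ t : ℝ, 0 < t →
    ‖q - p - t • u‖ ≤ κ * t → ℓ (F (A p)) < ℓ (F (A q))

end defs

/-- smoothness of the mollification -/
def StMollS : Prop :=
  ∀ (n : ℕ) (G : E n → E n) (c : E n → ℝ), ContinuousOn G (closedBall 0 2) → ContDiff ℝ ∞ c →
    (∀ z, 0 ≤ c z) → (∀ z, c z ≤ 1 / 4) → (∀ z, 1 < ‖z‖ → c z = 0) →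
    ContinuousOn (Moll n G c) (closedBall 0 (3 / 2)) ∧
    (∀ z, c z = 0 → Moll n G c z = G z) ∧
    (∀ z, 0 < c z → ContDiffAt ℝ ∞ (Moll n G c) z) ∧
    ∀ z, ‖z‖ ≤ 1 → c z = 0 → (∀ᶠ y in 𝓝 z, ContDiffAt ℝ ∞ G y) →
      ContDiffAt ℝ ∞ (Moll n G c) z ∧ fderiv ℝ (Moll n G c) z = fderiv ℝ G z

/-- positivity of the derivative of the mollification -/
def StMollP : Prop :=
  ∀ (n : ℕ) (G : E n → E n) (c : E n → ℝ) (κ : ℝ) (u : E n) (ℓ : E n →L[ℝ] ℝ), 0 < κ →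
    ContinuousOn G (closedBall 0 2) → ContDiff ℝ ∞ c →
    (∀ z, 0 ≤ c z) → (∀ z, c z ≤ 1 / 4) → (∀ z, 1 < ‖z‖ → c z = 0) →
    (∀ y z, |c y - c z| ≤ κ / 2 * ‖y - z‖) → ‖u‖ = 1 →
    (∀ p q : E n, ‖p‖ ≤ 3 / 2 → ‖q‖ ≤ 3 / 2 → ∀ t : ℝ, 0 < t → ‖q - p - t • u‖ ≤ κ * t →
      ℓ (G p) < ℓ (G q)) →
    ∀ z, 0 < c z → 0 < ℓ (fderiv ℝ (Moll n G c) z u)

/-- small displacements in one chart are `C¹`-small in the other charts -/
def StDisp : Prop :=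
  ∀ (n : ℕ) (X : Type) [TopologicalSpace X] [T2Space X] [ChartedSpace (E n) X]
    [IsManifold (𝓡 n) ∞ X] (A B : E n → X) (χ : E n → ℝ),
    InjOn A (closedBall 0 2) → (∀ z ∈ closedBall 0 2, LD n A z) →
    InjOn B (closedBall 0 2) → (∀ z ∈ closedBall 0 2, LD n B z) →
    ContDiff ℝ ∞ χ → (∀ z, 1 ≤ ‖z‖ → χ z = 0) → ∀ (ρ ρ' η : ℝ), 0 < ρ' → ρ' < ρ → ρ ≤ 2 → 0 < η →
    ∃ ε₀ : ℝ, 0 < ε₀ ∧ ∀ ε : ℝ, |ε| ≤ ε₀ → ∀ s : E n, ‖s‖ ≤ 1 → ∃ τ : E n → E n,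
      (∀ p, ‖p‖ ≤ ρ' → ‖τ p‖ ≤ ρ) ∧
      (∀ p, ‖p‖ ≤ ρ' → ∀ z, ‖z‖ ≤ 1 → A z = B p → B (τ p) = A (z + (ε * χ z) • s)) ∧
      (∀ p, ‖p‖ ≤ ρ' → B p ∉ A '' closedBall 0 1 → τ p = p) ∧
      ∀ p q, ‖p‖ ≤ ρ' → ‖q‖ ≤ ρ' → ‖(τ q - τ p) - (q - p)‖ ≤ η * ‖q - p‖

/-- one step of the smoothing -/
def StMStep : Prop :=
  ∀ (n : ℕ) (X : Type) [TopologicalSpace X] [T2Space X] [ChartedSpace (E n) X]
    [IsManifold (𝓡 n) ∞ X] (F : X → E n) (N : ℕ) (B : Fin N → E n → X) (k : Fin N)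
    (ρ ρ' κ κ' : ℝ), Continuous F → (∀ j, InjOn (B j) (closedBall 0 2)) →
    (∀ j, ∀ z ∈ closedBall 0 2, LD n (B j) z) → 3 / 2 ≤ ρ' → ρ' < ρ → ρ ≤ 2 → 0 < κ' → κ' < κ →
    (∀ j, MBox n F (B j) ρ κ) →
    ∃ F' : X → E n, Continuous F' ∧ (∀ p, p ∉ B k '' closedBall 0 1 → F' p = F p) ∧
      ((∀ p, ‖F p‖ < 1) → ∀ p, ‖F' p‖ < 1) ∧ (∀ p, LD n F p → LD n F' p) ∧
      (∀ z, ‖z‖ ≤ 1 / 2 → LD n F' (B k z)) ∧ ∀ j, MBox n F' (B j) ρ' κ'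

/-- uniform boxes exist -/
def StMChart : Prop :=
  ∀ (n : ℕ) (X : Type) [TopologicalSpace X] [ChartedSpace (E n) X] (F : X → E n) (x : X),
    DMon n F x → ∃ (B : E n → X) (κ : ℝ), 0 < κ ∧ B 0 = x ∧ InjOn B (closedBall 0 2) ∧
      (∀ z ∈ closedBall 0 2, LD n B z) ∧ MBox n F B 2 κ

/-- local homeomorphisms which agree with a homeomorphism onto the ball off a compact set -/
def StCover : Prop :=
  ∀ (n : ℕ) (X : Type) [TopologicalSpace X] [T2Space X] [ChartedSpace (E n) X]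
    (F F' : X → E n) (C : Set X), IsOpenEmbedding F → range F = ball 0 1 → IsCompact C →
    (∀ p, p ∉ C → F' p = F p) → (∀ p, ‖F' p‖ < 1) → (∀ x, LD n F' x) →
    Injective F' ∧ range F' = ball 0 1

/-- smoothing of directionally monotone homeomorphisms onto the ball -/
def StMGlob : Prop :=
  ∀ (n : ℕ) (X : Type) [TopologicalSpace X] [T2Space X] [ChartedSpace (E n) X]
    [IsManifold (𝓡 n) ∞ X] (F : X → E n), IsOpenEmbedding F → range F = ball 0 1 →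
    (∀ x, ¬ LD n F x → DMon n F x) → IsCompact {x | ¬ LD n F x} →
    ∃ (F' : X → E n) (C : Set X), IsCompact C ∧ Continuous F' ∧ Injective F' ∧
      range F' = range F ∧ (∀ p, p ∉ C → F' p = F p) ∧ ∀ x, LD n F' x

/-- The compact case: a homeomorphism onto the ball which is a diffeomorphism near the boundary and
directionally monotone at the interior points. -/
def StMCompact : Prop :=
  ∀ (m : ℕ) (M N : Type) [TopologicalSpace M] [TopologicalSpace N]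
    [ChartedSpace (EuclideanHalfSpace (m + 1)) M] [ChartedSpace (EuclideanHalfSpace (m + 1)) N]
    [IsManifold (𝓡∂ (m + 1)) ∞ M] [IsManifold (𝓡∂ (m + 1)) ∞ N]
    (h : M ≃ₜ closedBall (0 : E (m + 1)) 1) (j : N ≃ₜ closedBall (0 : E (m + 1)) 1),
    (∀ y ∈ (𝓡∂ (m + 1)).interior N,
      IsLocalDiffeomorphAt (𝓡∂ (m + 1)) (𝓡 (m + 1)) ∞ (fun y => (j y : E (m + 1))) y) →
    (∀ x ∉ (𝓡∂ (m + 1)).interior M,
      IsLocalDiffeomorphAt (𝓡∂ (m + 1)) (𝓡∂ (m + 1)) ∞ (fun x => j.symm (h x)) x) →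
    (∀ x ∈ (𝓡∂ (m + 1)).interior M, ∃ A : E (m + 1) → M, A 0 = x ∧
      IsLocalDiffeomorphAt (𝓡 (m + 1)) (𝓡∂ (m + 1)) ∞ A 0 ∧
      ∀ v : E (m + 1), v ≠ 0 → ∃ (r : ℝ) (ℓ : E (m + 1) →L[ℝ] ℝ), 0 < r ∧
        ∀ p q : E (m + 1), ‖p‖ ≤ r → ‖q‖ ≤ r → ∀ t : ℝ, 0 < t → ‖q - p - t • v‖ ≤ r * t →
          ℓ (h (A p)) < ℓ (h (A q))) →
    Nonempty (Diffeomorph (𝓡∂ (m + 1)) (𝓡∂ (m + 1)) M N ∞)

end Pool.Agent.Y522
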