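import Pool.Agent.Y522.Main
import Pool.Agent.Y522.Stm4
import Pool.Agent.Y674.SH.Box3
import Pool.Agent.Y748.SH.Sphere3
import Pool.Agent.Y496.SH.D4

/-!
# Maps which are smooth homeomorphisms off a thin set: assembly
-/

set_option autoImplicit false

open Set Filter Topology Metric Function MeasureTheory
open scoped Manifold ContDiff

noncomputable section

namespace Pool.Agent.Y522

theorem stBox3_all (m : ℕ) : StBox3 m :=
  Pool.Agent.Y674.SH.boxStep3 Pool.Agent.Y67.SH.sardM hSlice hSum3 m (stEng_all m)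

theorem stEng3_all (m : ℕ) : StEng3 m :=
  Pool.Agent.Y748.SH.sphereStep3 Pool.Agent.Y67.SH.sardM hSlice hMazur3 m (stEng_all m)
    (stBox3_all m)

/-- manifolds with a thin map onto `ℝ^n`, `n ≥ 1`, are diffeomorphic to `ℝ^n` -/
theorem diffeo_of_thin (m : ℕ) (X : Type) [TopologicalSpace X] [T2Space X]
    [ChartedSpace (E (m + 1)) X] [IsManifold (𝓡 (m + 1)) ∞ X] (f : X → E (m + 1))
    (Y : Set (E (m + 1))) (hf : ThinMap (m + 1) f Y) :
    Nonempty (Diffeomorph (𝓡 (m + 1)) (𝓡 (m + 1)) X (E (m + 1)) ∞) := by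
  have hsc : SigmaCompactSpace X := by
    refine ⟨⟨fun k : ℕ => f ⁻¹' closedBall 0 k, fun k => ?_, ?_⟩⟩
    · exact hf.proper.isCompact_preimage (isCompact_closedBall _ _)
    · ext x
      simp only [mem_iUnion, mem_preimage, mem_closedBall, dist_zero_right, mem_univ, iff_true]
      exact exists_nat_ge _
  have : SecondCountableTopology X :=
    ChartedSpace.secondCountable_of_sigmaCompact (E (m + 1)) X
  exact hMono (m + 1) X (stEng3_all m X f Y hf)

theorem stThin4 : StThin4 := by
  intro X _ _ _ _ _ f Y hf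
  exact diffeo_of_thin 3 X f Y hf

theorem stD4 : StD4 := Pool.Agent.Y496.SH.d4 stThin4

theorem stD4H : StD4H := Pool.Agent.Y496.SH.d4h stThin4

end Pool.Agent.Y522
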